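import Mathlib

set_option autoImplicit false

namespace Pool.Agent.helper41.Dom

open Finset

universe u

variable {V : Type u}

/-- State-based two-player game with legal and next. `true` = Dominator to move. -/
def FS (legal : Finset V → V → Prop) (next : Finset V → V → Finset V) :
    ℕ → Bool → Finset V → Prop
  | 0, _, U => ∀ v, ¬ legal U v
  | k + 1, true, U => (∀ v, ¬ legal U v) ∨ ∃ v, legal U v ∧ FS legal next k false (next U v)
  | k + 1, false, U => ∀ v, legal U v → FS legal next k true (next U v)

theorem FS_over {legal : Finset V → V → Prop} {next : Finset V → V → Finset V} {U : Finset V}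
    (h : ∀ v, ¬ legal U v) (k : ℕ) (b : Bool) : FS legal next k b U := by
  cases k with
  | zero => exact h
  | succ k => cases b with
    | true => exact Or.inl h
    | false => exact fun v hv => absurd hv (h v)

theorem FS_succ {legal : Finset V → V → Prop} {next : Finset V → V → Finset V} :
    ∀ (k : ℕ) (b : Bool) (U : Finset V), FS legal next k b U → FS legal next (k + 1) b U := by
  intro k
  induction k with
  | zero => intro b U h; exact FS_over h _ _
  | succ k ih =>
    intro b U h
    cases b with
    | true =>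
      rcases h with h | ⟨v, hv, h⟩
      · exact Or.inl h
      · exact Or.inr ⟨v, hv, ih _ _ h⟩
    | false => exact fun v hv => ih _ _ (h v hv)

theorem FS_mono {legal : Finset V → V → Prop} {next : Finset V → V → Finset V}
    {k k' : ℕ} (hk : k ≤ k') {b : Bool} {U : Finset V} (h : FS legal next k b U) :
    FS legal next k' b U := by
  induction k', hk using Nat.le_induction with
  | base => exact h
  | succ n _ ih => exact FS_succ _ _ _ ih

section
variable [Fintype V] [DecidableEq V] (G : SimpleGraph V) [DecidableRel G.Adj]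

/-- legality and transition in the Z-game: state is the set of undominated vertices. -/
def zl (U : Finset V) (v : V) : Prop := ∃ x ∈ U, G.Adj v x
def zn (U : Finset V) (v : V) : Finset V := U.filter fun x => x ≠ v ∧ ¬ G.Adj v x

def ll (U : Finset V) (v : V) : Prop := ∃ x ∈ U, x = v ∨ G.Adj v x
def ln (U : Finset V) (v : V) : Finset V := U.filter fun x => ¬ G.Adj v x

/-- `D` dominates `U`. -/
def Dom (D U : Finset V) : Prop := ∀ x ∈ U, ∃ d ∈ D, x = d ∨ G.Adj d x

variable {G}

theorem mem_zn {U : Finset V} {v x : V} : x ∈ zn G U v ↔ x ∈ U ∧ x ≠ v ∧ ¬ G.Adj v x := by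
  simp [zn]

theorem mem_ln {U : Finset V} {v x : V} : x ∈ ln G U v ↔ x ∈ U ∧ ¬ G.Adj v x := by
  simp [ln]

theorem zn_mono {U U' : Finset V} (h : U' ⊆ U) (v : V) : zn G U' v ⊆ zn G U v := by
  intro x hx
  rw [mem_zn] at *
  exact ⟨h hx.1, hx.2⟩

theorem Dom.mono {D U U' : Finset V} (h : Dom G D U) (h' : U' ⊆ U) : Dom G D U' :=
  fun x hx => h x (h' hx)

theorem Dom.erase {D U : Finset V} (h : Dom G D U) (d : V) : Dom G (D.erase d) (zn G U d) := by
  intro x hx
  rw [mem_zn] at hx
  obtain ⟨c, hc, hcx⟩ := h x hx.1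
  refine ⟨c, Finset.mem_erase.2 ⟨?_, hc⟩, hcx⟩
  rintro rfl
  rcases hcx with h | h
  · exact hx.2.1 h
  · exact hx.2.2 h

/-- Continuation principle for the Z-game. -/
theorem FZ_anti (hiso : ∀ v, ∃ w, G.Adj v w) :
    ∀ (k : ℕ) (b : Bool) (U U' : Finset V), U' ⊆ U → FS (zl G) (zn G) k b U →
      FS (zl G) (zn G) k b U' := by
  intro k
  induction k with
  | zero =>
    intro b U U' hU h v hv
    obtain ⟨x, hx, hvx⟩ := hv
    exact h v ⟨x, hU hx, hvx⟩
  | succ k ih =>
    intro b U U' hU h
    cases b with
    | false =>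
      intro v hv
      obtain ⟨x, hx, hvx⟩ := hv
      exact ih _ _ _ (zn_mono hU v) (h v ⟨x, hU hx, hvx⟩)
    | true =>
      rcases h with h | ⟨v, hv, h⟩
      · exact Or.inl fun v hv => by
          obtain ⟨x, hx, hvx⟩ := hv
          exact h v ⟨x, hU hx, hvx⟩
      · by_cases hl : zl G U' v
        · exact Or.inr ⟨v, hl, ih _ _ _ (zn_mono hU v) h⟩
        · by_cases hv' : v ∈ U'
          · obtain ⟨w, hw⟩ := hiso v
            refine Or.inr ⟨w, ⟨v, hv', hw.symm⟩, ih _ _ _ ?_ h⟩
            intro x hx
            rw [mem_zn] at *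
            refine ⟨hU hx.1, ?_, fun hvx => hl ⟨x, hx.1, hvx⟩⟩
            rintro rfl
            exact hx.2.2 hw.symm
          · by_cases hex : ∃ w, zl G U' w
            · obtain ⟨w, hw⟩ := hex
              refine Or.inr ⟨w, hw, ih _ _ _ ?_ h⟩
              intro x hx
              rw [mem_zn] at *
              refine ⟨hU hx.1, ?_, fun hvx => hl ⟨x, hx.1, hvx⟩⟩
              rintro rfl
              exact hv' hx.1
            · push Not at hex
              exact Or.inl hex

/-- Dominator may process any vertex `d`. -/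
theorem FZ_proc (hiso : ∀ v, ∃ w, G.Adj v w) (k : ℕ) (U : Finset V) (d : V)
    (h : FS (zl G) (zn G) k false (zn G U d)) : FS (zl G) (zn G) (k + 1) true U := by
  by_cases hl : zl G U d
  · exact Or.inr ⟨d, hl, h⟩
  · by_cases hd : d ∈ U
    · obtain ⟨w, hw⟩ := hiso d
      refine Or.inr ⟨w, ⟨d, hd, hw.symm⟩, FZ_anti hiso _ _ _ _ ?_ h⟩
      intro x hx
      rw [mem_zn] at *
      refine ⟨hx.1, ?_, fun hvx => hl ⟨x, hx.1, hvx⟩⟩
      rintro rfl
      exact hx.2.2 hw.symm
    · by_cases hex : ∃ w, zl G U w
      · obtain ⟨w, hw⟩ := hex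
        refine Or.inr ⟨w, hw, FZ_anti hiso _ _ _ _ ?_ h⟩
        intro x hx
        rw [mem_zn] at *
        refine ⟨hx.1, ?_, fun hvx => hl ⟨x, hx.1, hvx⟩⟩
        rintro rfl
        exact hd hx.1
      · push Not at hex
        exact Or.inl hex

theorem FZ_empty (k : ℕ) (b : Bool) : FS (zl G) (zn G) k b ∅ :=
  FS_over (by rintro v ⟨x, hx, _⟩; simp at hx) _ _

/-- basic upper bound -/
theorem FZ_basic (hiso : ∀ v, ∃ w, G.Adj v w) :
    ∀ (m : ℕ) (M U : Finset V), M.card ≤ m → Dom G M U →
      FS (zl G) (zn G) (2 * m - 1) true U ∧ FS (zl G) (zn G) (2 * m) false U := by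
  intro m
  induction m with
  | zero =>
    intro M U hM hU
    have hM' : M = ∅ := by simpa using hM
    subst hM'
    have : U = ∅ := by
      rw [Finset.eq_empty_iff_forall_notMem]
      intro x hx
      obtain ⟨d, hd, _⟩ := hU x hx
      simp at hd
    subst this
    exact ⟨FZ_empty _ _, FZ_empty _ _⟩
  | succ m ih =>
    have key : ∀ (M U : Finset V), M.card ≤ m + 1 → Dom G M U →
        FS (zl G) (zn G) (2 * (m + 1) - 1) true U := by
      intro M U hM hU
      rcases M.eq_empty_or_nonempty with hM' | ⟨d, hd⟩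
      · exact FS_mono (by omega) (ih M U (by simp [hM']) hU).1
      · have h := (ih (M.erase d) (zn G U d) (by rw [Finset.card_erase_of_mem hd]; omega)
          (hU.erase d)).2
        exact FZ_proc hiso _ _ d h
    intro M U hM hU
    refine ⟨key M U hM hU, ?_⟩
    have e : 2 * (m + 1) = (2 * (m + 1) - 1) + 1 := by omega
    rw [e]
    intro v _
    exact key M (zn G U v) hM (hU.mono (Finset.filter_subset _ _))

/-! ### Rooted forests -/

/-- `rk` exhibits `G` as a rooted forest. -/
structure Rooted (G : SimpleGraph V) (rk : V → ℕ) : Prop where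
  adj : ∀ ⦃x y : V⦄, G.Adj x y → rk x = rk y + 1 ∨ rk y = rk x + 1
  uniq : ∀ ⦃x y z : V⦄, G.Adj x y → G.Adj x z → rk x = rk y + 1 → rk x = rk z + 1 → y = z

theorem count_aux {rk : V → ℕ} {S C : Finset V} (hS : S.Nonempty) (hC : C ⊆ S)
    (h : ∀ y ∈ C, ∃ p ∈ S, rk y = rk p + 1) : C.card + 1 ≤ S.card := by
  obtain ⟨s, hs, hmin⟩ := Finset.exists_min_image S rk hS
  have hsC : s ∉ C := by
    intro hsC
    obtain ⟨p, hp, h'⟩ := h s hsC
    have := hmin p hp
    omega
  have : insert s C ⊆ S := Finset.insert_subset hs hC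
  have := Finset.card_le_card this
  rwa [Finset.card_insert_of_notMem hsC] at this

theorem forest_count {rk : V → ℕ} (hr : Rooted G rk) {M W Q P : Finset V}
    (hMW : Disjoint M W) (hQW : Q ⊆ W)
    (hQ : ∀ y ∈ Q, ∃ p ∈ W, G.Adj y p ∧ rk y = rk p + 1)
    (hW : ∀ w ∈ W, ∃ m ∈ M, G.Adj w m)
    (hPM : P ⊆ M) (hP : ∀ y ∈ P, ∃ p ∈ M, G.Adj y p ∧ rk y = rk p + 1)
    (hne : (M ∪ W).Nonempty) : Q.card + P.card + 1 ≤ M.card := by
  classical
  have hdisj : ∀ x, x ∈ M → x ∈ W → False := fun x h1 h2 =>
    (Finset.disjoint_left.1 hMW) h1 h2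
  have hW' : ∀ w, ∃ m, w ∈ W → (m ∈ M ∧ G.Adj w m) := by
    intro w
    by_cases hw : w ∈ W
    · obtain ⟨m, hm, hwm⟩ := hW w hw
      exact ⟨m, fun _ => ⟨hm, hwm⟩⟩
    · exact ⟨w, fun h => absurd h hw⟩
  choose f hf using hW'
  set C1 := W.filter fun w => rk w = rk (f w) + 1 with hC1
  set C0 := W.filter fun w => ¬ rk w = rk (f w) + 1 with hC0
  set C2 := C0.image f with hC2
  have hcard : C1.card + C0.card = W.card := by
    rw [hC1, hC0, Finset.card_filter_add_card_filter_not]
  have hC0' : ∀ w ∈ C0, w ∈ W ∧ rk (f w) = rk w + 1 := by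
    intro w hw
    rw [hC0, Finset.mem_filter] at hw
    refine ⟨hw.1, ?_⟩
    rcases hr.adj (hf w hw.1).2 with h | h
    · exact absurd h hw.2
    · exact h
  have hinj : C2.card = C0.card := by
    apply Finset.card_image_of_injOn
    intro w hw w' hw' hww
    have h1 := hC0' w hw
    have h2 := hC0' w' hw'
    have a1 := (hf w h1.1).2
    have a2 := (hf w' h2.1).2
    have hww' : f w = f w' := hww
    rw [← hww'] at a2
    refine hr.uniq a1.symm a2.symm h1.2 ?_
    have := h2.2
    rw [← hww'] at this
    exact this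
  have hC2M : ∀ x ∈ C2, x ∈ M ∧ ∃ w ∈ W, G.Adj x w ∧ rk x = rk w + 1 := by
    intro x hx
    rw [hC2, Finset.mem_image] at hx
    obtain ⟨w, hw, rfl⟩ := hx
    have h1 := hC0' w hw
    exact ⟨(hf w h1.1).1, w, h1.1, (hf w h1.1).2.symm, h1.2⟩
  have hC1W : ∀ x ∈ C1, x ∈ W ∧ ∃ m ∈ M, G.Adj x m ∧ rk x = rk m + 1 := by
    intro x hx
    rw [hC1, Finset.mem_filter] at hx
    exact ⟨hx.1, f x, (hf x hx.1).1, (hf x hx.1).2, hx.2⟩
  have d1 : Disjoint Q C1 := by
    rw [Finset.disjoint_left]
    intro x hx hx'
    obtain ⟨p, hp, hxp, hr1⟩ := hQ x hx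
    obtain ⟨_, m, hm, hxm, hr2⟩ := hC1W x hx'
    have := hr.uniq hxp hxm hr1 hr2
    subst this
    exact hdisj _ hm hp
  have d2 : Disjoint P C2 := by
    rw [Finset.disjoint_left]
    intro x hx hx'
    obtain ⟨p, hp, hxp, hr1⟩ := hP x hx
    obtain ⟨_, m, hm, hxm, hr2⟩ := hC2M x hx'
    have := hr.uniq hxp hxm hr1 hr2
    subst this
    exact hdisj _ hp hm
  have d3 : Disjoint (Q ∪ C1) (P ∪ C2) := by
    rw [Finset.disjoint_left]
    intro x hx hx'
    have h1 : x ∈ W := by
      rcases Finset.mem_union.1 hx with h | h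
      · exact hQW h
      · exact (hC1W x h).1
    have h2 : x ∈ M := by
      rcases Finset.mem_union.1 hx' with h | h
      · exact hPM h
      · exact (hC2M x h).1
    exact hdisj _ h2 h1
  have hsub : (Q ∪ C1) ∪ (P ∪ C2) ⊆ M ∪ W := by
    intro x hx
    rw [Finset.mem_union] at hx ⊢
    rcases hx with hx | hx
    · right
      rcases Finset.mem_union.1 hx with h | h
      · exact hQW h
      · exact (hC1W x h).1
    · left
      rcases Finset.mem_union.1 hx with h | h
      · exact hPM h
      · exact (hC2M x h).1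
  have hfin := count_aux (rk := rk) hne hsub (by
    intro y hy
    rw [Finset.mem_union] at hy
    rcases hy with hy | hy
    · rcases Finset.mem_union.1 hy with h | h
      · obtain ⟨p, hp, _, h'⟩ := hQ y h
        exact ⟨p, Finset.mem_union_right _ hp, h'⟩
      · obtain ⟨_, p, hp, _, h'⟩ := hC1W y h
        exact ⟨p, Finset.mem_union_left _ hp, h'⟩
    · rcases Finset.mem_union.1 hy with h | h
      · obtain ⟨p, hp, _, h'⟩ := hP y h
        exact ⟨p, Finset.mem_union_left _ hp, h'⟩
      · obtain ⟨_, p, hp, _, h'⟩ := hC2M y h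
        exact ⟨p, Finset.mem_union_right _ hp, h'⟩)
  rw [Finset.card_union_of_disjoint d3, Finset.card_union_of_disjoint d1,
    Finset.card_union_of_disjoint d2, Finset.card_union_of_disjoint hMW] at hfin
  omega


/-! ### The potential -/

section potential
variable (G)
/-- edges (encoded by their child vertex) avoiding `M` with at least one end in `U`. -/
noncomputable def alive (rk : V → ℕ) (M U : Finset V) : Finset V := by
  classical exact
  Finset.univ.filter fun y => ∃ p, G.Adj y p ∧ rk y = rk p + 1 ∧ y ∉ M ∧ p ∉ M ∧ (y ∈ U ∨ p ∈ U)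

noncomputable def both (rk : V → ℕ) (M U : Finset V) : Finset V := by
  classical exact
  Finset.univ.filter fun y => ∃ p, G.Adj y p ∧ rk y = rk p + 1 ∧ y ∉ M ∧ p ∉ M ∧ (y ∈ U ∧ p ∈ U)

noncomputable def EE (rk : V → ℕ) (M U : Finset V) : ℕ := (U ∩ M).card + (alive G rk M U).card

noncomputable def qq (rk : V → ℕ) (M U : Finset V) : ℕ := (both G rk M U).card

end potential

theorem mem_alive {rk : V → ℕ} {M U : Finset V} {y : V} : y ∈ alive G rk M U ↔
    ∃ p, G.Adj y p ∧ rk y = rk p + 1 ∧ y ∉ M ∧ p ∉ M ∧ (y ∈ U ∨ p ∈ U) := by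
  simp [alive]

theorem mem_both {rk : V → ℕ} {M U : Finset V} {y : V} : y ∈ both G rk M U ↔
    ∃ p, G.Adj y p ∧ rk y = rk p + 1 ∧ y ∉ M ∧ p ∉ M ∧ (y ∈ U ∧ p ∈ U) := by
  simp [both]

theorem both_subset_alive {rk : V → ℕ} {M U : Finset V} : both G rk M U ⊆ alive G rk M U := by
  intro y hy
  rw [mem_both] at hy
  rw [mem_alive]
  obtain ⟨p, h1, h2, h3, h4, h5, h6⟩ := hy
  exact ⟨p, h1, h2, h3, h4, Or.inl h5⟩

theorem qq_le_EE {rk : V → ℕ} {M U : Finset V} : qq G rk M U ≤ EE G rk M U := by
  unfold qq EE
  have := Finset.card_le_card (both_subset_alive (G := G) (rk := rk) (M := M) (U := U))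
  omega

theorem alive_mono {rk : V → ℕ} {M U U' : Finset V} (h : U' ⊆ U) :
    alive G rk M U' ⊆ alive G rk M U := by
  intro y hy
  rw [mem_alive] at *
  obtain ⟨p, h1, h2, h3, h4, h5⟩ := hy
  exact ⟨p, h1, h2, h3, h4, h5.imp (fun h' => h h') (fun h' => h h')⟩

theorem both_mono {rk : V → ℕ} {M U U' : Finset V} (h : U' ⊆ U) :
    both G rk M U' ⊆ both G rk M U := by
  intro y hy
  rw [mem_both] at *
  obtain ⟨p, h1, h2, h3, h4, h5, h6⟩ := hy
  exact ⟨p, h1, h2, h3, h4, h h5, h h6⟩

theorem zn_subset {U : Finset V} {v : V} : zn G U v ⊆ U := Finset.filter_subset _ _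

theorem alive_erase {rk : V → ℕ} {M U : Finset V} {d : V} :
    alive G rk (M.erase d) (zn G U d) ⊆ alive G rk M U := by
  intro y hy
  rw [mem_alive] at *
  obtain ⟨p, h1, h2, h3, h4, h5⟩ := hy
  have hyd : y ≠ d := by
    rintro rfl
    rcases h5 with h5 | h5
    · exact (mem_zn.1 h5).2.1 rfl
    · exact (mem_zn.1 h5).2.2 h1
  have hpd : p ≠ d := by
    rintro rfl
    rcases h5 with h5 | h5
    · exact (mem_zn.1 h5).2.2 h1.symm
    · exact (mem_zn.1 h5).2.1 rfl
  refine ⟨p, h1, h2, fun h => h3 (Finset.mem_erase.2 ⟨hyd, h⟩),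
    fun h => h4 (Finset.mem_erase.2 ⟨hpd, h⟩), h5.imp (fun h => zn_subset h)
      (fun h => zn_subset h)⟩

theorem both_erase {rk : V → ℕ} {M U : Finset V} {d : V} :
    both G rk (M.erase d) (zn G U d) ⊆ both G rk M U := by
  intro y hy
  rw [mem_both] at *
  obtain ⟨p, h1, h2, h3, h4, h5, h6⟩ := hy
  have hyd : y ≠ d := by
    rintro rfl
    exact (mem_zn.1 h5).2.1 rfl
  have hpd : p ≠ d := by
    rintro rfl
    exact (mem_zn.1 h6).2.1 rfl
  exact ⟨p, h1, h2, fun h => h3 (Finset.mem_erase.2 ⟨hyd, h⟩),
    fun h => h4 (Finset.mem_erase.2 ⟨hpd, h⟩), zn_subset h5, zn_subset h6⟩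

theorem inter_erase_subset {M U : Finset V} {d : V} :
    zn G U d ∩ (M.erase d) ⊆ U ∩ M := by
  intro x hx
  rw [Finset.mem_inter] at *
  exact ⟨zn_subset hx.1, Finset.mem_of_mem_erase hx.2⟩

/-- the child end of an alive edge -/
theorem edge_alive {rk : V → ℕ} (hr : Rooted G rk) {M U : Finset V} {x y : V} (hxy : G.Adj x y)
    (hx : x ∉ M) (hy : y ∉ M) (hU : x ∈ U ∨ y ∈ U) :
    ∃ c, c ∈ alive G rk M U ∧ (∀ M' U', x ∉ U' → y ∉ U' → c ∉ alive G rk M' U') := by
  rcases hr.adj hxy with h | h
  · refine ⟨x, mem_alive.2 ⟨y, hxy, h, hx, hy, hU⟩, ?_⟩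
    intro M' U' hx' hy' hc
    obtain ⟨p, h1, h2, h3, h4, h5⟩ := mem_alive.1 hc
    have := hr.uniq hxy h1 h h2
    subst this
    rcases h5 with h5 | h5
    · exact hx' h5
    · exact hy' h5
  · refine ⟨y, mem_alive.2 ⟨x, hxy.symm, h, hy, hx, hU.symm⟩, ?_⟩
    intro M' U' hx' hy' hc
    obtain ⟨p, h1, h2, h3, h4, h5⟩ := mem_alive.1 hc
    have := hr.uniq hxy.symm h1 h h2
    subst this
    rcases h5 with h5 | h5
    · exact hy' h5
    · exact hx' h5

theorem edge_both {rk : V → ℕ} (hr : Rooted G rk) {M U : Finset V} {x y : V} (hxy : G.Adj x y)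
    (hx : x ∉ M) (hy : y ∉ M) (hxU : x ∈ U) (hyU : y ∈ U) :
    ∃ c, c ∈ both G rk M U ∧ (∀ M' U', (x ∉ U' ∨ y ∉ U') → c ∉ both G rk M' U') := by
  rcases hr.adj hxy with h | h
  · refine ⟨x, mem_both.2 ⟨y, hxy, h, hx, hy, hxU, hyU⟩, ?_⟩
    intro M' U' hx' hc
    obtain ⟨p, h1, h2, h3, h4, h5, h6⟩ := mem_both.1 hc
    have := hr.uniq hxy h1 h h2
    subst this
    rcases hx' with hx' | hx'
    · exact hx' h5
    · exact hx' h6
  · refine ⟨y, mem_both.2 ⟨x, hxy.symm, h, hy, hx, hyU, hxU⟩, ?_⟩
    intro M' U' hx' hc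
    obtain ⟨p, h1, h2, h3, h4, h5, h6⟩ := mem_both.1 hc
    have := hr.uniq hxy.symm h1 h h2
    subst this
    rcases hx' with hx' | hx'
    · exact hx' h6
    · exact hx' h5

/-- `d` is white or has a white neighbour outside `M` on a half-dead edge. -/
def AA (G : SimpleGraph V) (M U : Finset V) (d : V) : Prop :=
  d ∈ U ∨ ∃ x ∈ U, x ∉ M ∧ G.Adj d x ∧ ∃ y, G.Adj x y ∧ y ∉ M ∧ y ∉ U

def BB (G : SimpleGraph V) (M U : Finset V) (d : V) : Prop :=
  ∃ x ∈ U, x ∉ M ∧ G.Adj d x ∧ ∃ y ∈ U, y ∉ M ∧ G.Adj x y

theorem EE_erase_le {rk : V → ℕ} {M U : Finset V} {d : V} :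
    EE G rk (M.erase d) (zn G U d) ≤ EE G rk M U := by
  unfold EE
  have h1 := Finset.card_le_card (alive_erase (G := G) (rk := rk) (M := M) (U := U) (d := d))
  have h2 := Finset.card_le_card (inter_erase_subset (G := G) (M := M) (U := U) (d := d))
  omega

theorem qq_erase_le {rk : V → ℕ} {M U : Finset V} {d : V} :
    qq G rk (M.erase d) (zn G U d) ≤ qq G rk M U :=
  Finset.card_le_card both_erase

theorem AA_lt {rk : V → ℕ} (hr : Rooted G rk) {M U : Finset V} {d : V} (hd : d ∈ M)
    (h : AA G M U d) : EE G rk (M.erase d) (zn G U d) < EE G rk M U := by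
  unfold EE
  have h1 := Finset.card_le_card (alive_erase (G := G) (rk := rk) (M := M) (U := U) (d := d))
  have h2 := Finset.card_le_card (inter_erase_subset (G := G) (M := M) (U := U) (d := d))
  rcases h with h | ⟨x, hx, hxM, hdx, y, hxy, hyM, hyU⟩
  · have : (zn G U d ∩ (M.erase d)).card < (U ∩ M).card := by
      apply Finset.card_lt_card
      rw [Finset.ssubset_iff_of_subset inter_erase_subset]
      exact ⟨d, Finset.mem_inter.2 ⟨h, hd⟩, by simp⟩
    omega
  · have : (alive G rk (M.erase d) (zn G U d)).card < (alive G rk M U).card := by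
      apply Finset.card_lt_card
      rw [Finset.ssubset_iff_of_subset alive_erase]
      obtain ⟨c, hc, hc'⟩ := edge_alive hr hxy hxM hyM (Or.inl hx)
      refine ⟨c, hc, hc' _ _ ?_ ?_⟩
      · rw [mem_zn]; tauto
      · rw [mem_zn]; tauto
    omega

theorem BB_lt {rk : V → ℕ} (hr : Rooted G rk) {M U : Finset V} {d : V}
    (h : BB G M U d) : qq G rk (M.erase d) (zn G U d) < qq G rk M U := by
  obtain ⟨x, hx, hxM, hdx, y, hy, hyM, hxy⟩ := h
  apply Finset.card_lt_card
  rw [Finset.ssubset_iff_of_subset both_erase]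
  obtain ⟨c, hc, hc'⟩ := edge_both hr hxy hxM hyM hx hy
  refine ⟨c, hc, hc' _ _ (Or.inl ?_)⟩
  rw [mem_zn]; tauto

/-- If the potential exceeds `q` there is a useful `d`. -/
theorem exists_AA {rk : V → ℕ} (hr : Rooted G rk) {M U : Finset V} (hdom : Dom G M U)
    (h : qq G rk M U < EE G rk M U) : ∃ d ∈ M, AA G M U d := by
  by_cases hUM : (U ∩ M).Nonempty
  · obtain ⟨d, hd⟩ := hUM
    rw [Finset.mem_inter] at hd
    exact ⟨d, hd.2, Or.inl hd.1⟩
  · rw [Finset.not_nonempty_iff_eq_empty] at hUM
    unfold qq EE at h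
    rw [hUM] at h
    simp only [Finset.card_empty, zero_add] at h
    have : ∃ c ∈ alive G rk M U, c ∉ both G rk M U := by
      by_contra hcon
      push Not at hcon
      have := Finset.card_le_card (show alive G rk M U ⊆ both G rk M U from hcon)
      omega
    obtain ⟨c, hc, hc'⟩ := this
    obtain ⟨p, h1, h2, h3, h4, h5⟩ := mem_alive.1 hc
    have h6 : ¬ (c ∈ U ∧ p ∈ U) := fun h6 => hc' (mem_both.2 ⟨p, h1, h2, h3, h4, h6⟩)
    rcases h5 with h5 | h5
    · obtain ⟨d, hd, hcd⟩ := hdom c h5
      have hne : c ≠ d := by rintro rfl; exact h3 hd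
      exact ⟨d, hd, Or.inr ⟨c, h5, h3, hcd.resolve_left hne, p, h1, h4, fun h => h6 ⟨h5, h⟩⟩⟩
    · obtain ⟨d, hd, hcd⟩ := hdom p h5
      have hne : p ≠ d := by rintro rfl; exact h4 hd
      exact ⟨d, hd, Or.inr ⟨p, h5, h4, hcd.resolve_left hne, c, h1.symm, h3,
        fun h => h6 ⟨h, h5⟩⟩⟩

/-- Forest bound on `qq`. -/
theorem qq_bound {rk : V → ℕ} (hr : Rooted G rk) {M M' U : Finset V} (hM' : M' ⊆ M)
    (h : ∀ x ∈ U, x ∉ M → (∃ y ∈ U, y ∉ M ∧ G.Adj x y) → ∃ d ∈ M', G.Adj d x)
    (hne : M'.Nonempty ∨ 0 < qq G rk M U) : qq G rk M U + 1 ≤ M'.card := by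
  classical
  set W : Finset V := Finset.univ.filter fun x => x ∈ U ∧ x ∉ M ∧ ∃ y ∈ U, y ∉ M ∧ G.Adj x y with hW
  have hWm : ∀ x, x ∈ W ↔ x ∈ U ∧ x ∉ M ∧ ∃ y ∈ U, y ∉ M ∧ G.Adj x y := by
    intro x; rw [hW]; simp
  have hbW : both G rk M U ⊆ W := by
    intro y hy
    obtain ⟨p, h1, h2, h3, h4, h5, h6⟩ := mem_both.1 hy
    exact (hWm y).2 ⟨h5, h3, p, h6, h4, h1⟩
  have := forest_count (G := G) hr (M := M') (W := W) (Q := both G rk M U) (P := ∅)
    (by
      rw [Finset.disjoint_left]
      intro x hx hx'
      exact ((hWm x).1 hx').2.1 (hM' hx))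
    hbW
    (by
      intro y hy
      obtain ⟨p, h1, h2, h3, h4, h5, h6⟩ := mem_both.1 hy
      exact ⟨p, (hWm p).2 ⟨h6, h4, y, h5, h3, h1.symm⟩, h1, h2⟩)
    (by
      intro w hw
      obtain ⟨h1, h2, h3⟩ := (hWm w).1 hw
      obtain ⟨d, hd, hdw⟩ := h w h1 h2 h3
      exact ⟨d, hd, hdw.symm⟩)
    (Finset.empty_subset _) (by simp)
    (by
      rcases hne with hne | hne
      · exact hne.mono Finset.subset_union_left
      · obtain ⟨y, hy⟩ := Finset.card_pos.1 hne
        exact ⟨y, Finset.mem_union_right _ (hbW hy)⟩)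
  simpa [qq] using this

/-- The main induction. -/
theorem main_aux (hiso : ∀ v, ∃ w, G.Adj v w) {rk : V → ℕ} (hr : Rooted G rk) :
    ∀ (m : ℕ) (M U : Finset V), M.card = m → 1 ≤ m → Dom G M U →
      EE G rk M U + 2 ≤ 2 * m → (qq G rk M U + 2 ≤ m ∨ EE G rk M U = qq G rk M U) →
      FS (zl G) (zn G) (2 * m - 1) false U := by
  intro m
  induction m with
  | zero => intro M U _ h; omega
  | succ m ih =>
    intro M U hM _ hdom hE hq
    -- Dominator's turn
    have PD : ∀ U : Finset V, Dom G M U → EE G rk M U + 3 ≤ 2 * (m + 1) →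
        qq G rk M U + 2 ≤ m + 1 → FS (zl G) (zn G) (2 * m) true U := by
      intro U hdom hE hq
      have hm : 1 ≤ m := by omega
      -- it suffices to find a good `d`
      suffices ∃ d ∈ M, EE G rk (M.erase d) (zn G U d) + 2 ≤ 2 * m ∧
          (qq G rk (M.erase d) (zn G U d) + 2 ≤ m ∨
            EE G rk (M.erase d) (zn G U d) = qq G rk (M.erase d) (zn G U d)) by
        obtain ⟨d, hd, h1, h2⟩ := this
        have h3 := ih (M.erase d) (zn G U d) (by rw [Finset.card_erase_of_mem hd]; omega) hm
          (hdom.erase d) h1 h2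
        have e : 2 * m = (2 * m - 1) + 1 := by omega
        rw [e]
        exact FZ_proc hiso _ _ d h3
      by_cases c1 : ∃ d ∈ M, AA G M U d ∧ BB G M U d
      · obtain ⟨d, hd, hA, hB⟩ := c1
        have h1 := AA_lt hr hd hA
        have h2 := BB_lt hr hB
        exact ⟨d, hd, by omega, Or.inl (by omega)⟩
      · push Not at c1
        by_cases c2 : ∃ d ∈ M, AA G M U d
        · obtain ⟨d, hd, hA⟩ := c2
          have h1 := AA_lt hr hd hA
          have h2 := qq_erase_le (G := G) (rk := rk) (M := M) (U := U) (d := d)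
          by_cases hq3 : qq G rk M U + 3 ≤ m + 1
          · exact ⟨d, hd, by omega, Or.inl (by omega)⟩
          · refine ⟨d, hd, by omega, Or.inr ?_⟩
            by_contra hne
            have hlt : qq G rk (M.erase d) (zn G U d) < EE G rk (M.erase d) (zn G U d) :=
              lt_of_le_of_ne qq_le_EE (Ne.symm hne)
            obtain ⟨d', hd', hA'⟩ := exists_AA hr (hdom.erase d) hlt
            have hd'M : d' ∈ M := Finset.mem_of_mem_erase hd'
            have hdd' : d' ≠ d := Finset.ne_of_mem_erase hd'
            have hnB := c1 d hd hA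
            have hA'' : AA G M U d' := by
              rcases hA' with h | ⟨x, hx, hxM, hdx, y, hxy, hyM, hyU⟩
              · exact Or.inl (zn_subset h)
              · right
                have hx' := mem_zn.1 hx
                have hyd : y ≠ d := by
                  rintro rfl
                  exact hx'.2.2 hxy.symm
                have hxM' : x ∉ M := fun h => hxM (Finset.mem_erase.2 ⟨hx'.2.1, h⟩)
                have hyM' : y ∉ M := fun h => hyM (Finset.mem_erase.2 ⟨hyd, h⟩)
                refine ⟨x, hx'.1, hxM', hdx, y, hxy, hyM', ?_⟩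
                intro hyU'
                have hyd' : G.Adj d y := by
                  by_contra hcon
                  exact hyU (mem_zn.2 ⟨hyU', hyd, hcon⟩)
                exact hnB ⟨y, hyU', hyM', hyd', x, hx'.1, hxM', hxy.symm⟩
            have hnB' := c1 d' hd'M hA''
            have hcard : ((M.erase d).erase d').card + 2 = m + 1 := by
              rw [Finset.card_erase_of_mem hd', Finset.card_erase_of_mem hd]
              have : 2 ≤ M.card := by
                have : ({d, d'} : Finset V) ⊆ M := by
                  intro z hz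
                  simp only [Finset.mem_insert, Finset.mem_singleton] at hz
                  rcases hz with rfl | rfl
                  · exact hd
                  · exact hd'M
                have := Finset.card_le_card this
                rwa [Finset.card_pair hdd'.symm] at this
              omega
            by_cases hne' : ((M.erase d).erase d').Nonempty ∨ 0 < qq G rk M U
            · have := qq_bound hr (M := M) (M' := (M.erase d).erase d') (U := U)
                ((Finset.erase_subset _ _).trans (Finset.erase_subset _ _))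
                (by
                  intro x hx hxM hy
                  obtain ⟨y, hy, hyM, hxy⟩ := hy
                  obtain ⟨e, he, hxe⟩ := hdom x hx
                  have hne : x ≠ e := by rintro rfl; exact hxM he
                  have hex := hxe.resolve_left hne
                  refine ⟨e, Finset.mem_erase.2 ⟨?_, Finset.mem_erase.2 ⟨?_, he⟩⟩, hex⟩
                  · rintro rfl
                    exact hnB' ⟨x, hx, hxM, hex, y, hy, hyM, hxy⟩
                  · rintro rfl
                    exact hnB ⟨x, hx, hxM, hex, y, hy, hyM, hxy⟩) hne'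
              omega
            · push Not at hne'
              obtain ⟨h3, h4⟩ := hne'
              rw [h3, Finset.card_empty] at hcard
              omega
        · push Not at c2
          have hEq : EE G rk M U = qq G rk M U := by
            by_contra hne
            obtain ⟨d, hd, hA⟩ := exists_AA hr hdom (lt_of_le_of_ne qq_le_EE (Ne.symm hne))
            exact c2 d hd hA
          by_cases c3 : ∃ d ∈ M, BB G M U d
          · obtain ⟨d, hd, hB⟩ := c3
            have h1 := EE_erase_le (G := G) (rk := rk) (M := M) (U := U) (d := d)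
            have h2 := BB_lt hr hB
            exact ⟨d, hd, by omega, Or.inl (by omega)⟩
          · push Not at c3
            have hq0 : qq G rk M U = 0 := by
              unfold qq
              rw [Finset.card_eq_zero, Finset.eq_empty_iff_forall_notMem]
              intro y hy
              obtain ⟨p, h1, h2, h3, h4, h5, h6⟩ := mem_both.1 hy
              obtain ⟨d, hd, hyd⟩ := hdom y h5
              have hne : y ≠ d := by rintro rfl; exact h3 hd
              exact c3 d hd ⟨y, h5, h3, hyd.resolve_left hne, p, h6, h4, h1⟩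
            have hMne : M.Nonempty := by
              rw [← Finset.card_pos]; omega
            obtain ⟨d, hd⟩ := hMne
            have h1 := EE_erase_le (G := G) (rk := rk) (M := M) (U := U) (d := d)
            have h2 := qq_erase_le (G := G) (rk := rk) (M := M) (U := U) (d := d)
            exact ⟨d, hd, by omega, Or.inr (by omega)⟩
    -- Staller's turn
    have e : 2 * (m + 1) - 1 = 2 * m + 1 := by omega
    rw [e]
    intro s hs
    obtain ⟨x, hx, hsx⟩ := hs
    by_cases hsM : s ∈ M
    · exact FS_mono (by omega) (FZ_basic hiso m (M.erase s) (zn G U s)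
        (by rw [Finset.card_erase_of_mem hsM]; omega) (hdom.erase s)).1
    · have hsub : zn G U s ⊆ U := zn_subset
      have hsU : s ∉ zn G U s := by rw [mem_zn]; tauto
      have hxU : x ∉ zn G U s := by rw [mem_zn]; tauto
      have a1 := Finset.card_le_card (alive_mono (G := G) (rk := rk) (M := M) hsub)
      have a2 := Finset.card_le_card (both_mono (G := G) (rk := rk) (M := M) hsub)
      have a3 := Finset.card_le_card (Finset.inter_subset_inter_right (u := M) hsub)
      have hqM : qq G rk M U + 1 ≤ M.card := by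
        refine qq_bound hr (Finset.Subset.refl M) ?_ (Or.inl (by rw [← Finset.card_pos]; omega))
        intro x hx hxM _
        obtain ⟨e, he, hxe⟩ := hdom x hx
        have hne : x ≠ e := by rintro rfl; exact hxM he
        exact ⟨e, he, hxe.resolve_left hne⟩
      have hElt : EE G rk M (zn G U s) < EE G rk M U := by
        unfold EE
        by_cases hxM : x ∈ M
        · have : (zn G U s ∩ M).card < (U ∩ M).card := by
            apply Finset.card_lt_card
            rw [Finset.ssubset_iff_of_subset (Finset.inter_subset_inter_right hsub)]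
            exact ⟨x, Finset.mem_inter.2 ⟨hx, hxM⟩, by
              rw [Finset.mem_inter]; tauto⟩
          omega
        · obtain ⟨c, hc, hc'⟩ := edge_alive hr hsx hsM hxM (Or.inr hx)
          have : (alive G rk M (zn G U s)).card < (alive G rk M U).card := by
            apply Finset.card_lt_card
            rw [Finset.ssubset_iff_of_subset (alive_mono hsub)]
            exact ⟨c, hc, hc' _ _ hsU hxU⟩
          omega
      refine PD (zn G U s) (hdom.mono hsub) (by omega) ?_
      rcases hq with hq | hq
      · unfold qq at *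
        omega
      · -- all-zero case
        have hUM : (U ∩ M).card = 0 ∧ alive G rk M U = both G rk M U := by
          have b1 := Finset.card_le_card (both_subset_alive (G := G) (rk := rk) (M := M) (U := U))
          unfold EE qq at hq
          refine ⟨by omega, ?_⟩
          exact (Finset.eq_of_subset_of_card_le both_subset_alive (by omega)).symm
        have hxM : x ∉ M := by
          intro hxM
          have : x ∈ U ∩ M := Finset.mem_inter.2 ⟨hx, hxM⟩
          rw [Finset.card_eq_zero] at hUM
          rw [hUM.1] at this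
          simp at this
        obtain ⟨c, hc, hc'⟩ := edge_alive hr hsx hsM hxM (Or.inr hx)
        have : (both G rk M (zn G U s)).card < (both G rk M U).card := by
          apply Finset.card_lt_card
          rw [Finset.ssubset_iff_of_subset (both_mono hsub)]
          refine ⟨c, hUM.2 ▸ hc, fun h => hc' _ _ hsU hxU (both_subset_alive h)⟩
        unfold qq at *
        omega


/-- First move from an adjacent pair in a dominating set. -/
theorem start_aux (hiso : ∀ v, ∃ w, G.Adj v w) {rk : V → ℕ} (hr : Rooted G rk)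
    {M : Finset V} (hdom : Dom G M Finset.univ) {a b : V} (ha : a ∈ M) (hb : b ∈ M)
    (hab : G.Adj a b) (hBB : BB G M Finset.univ a ∨ ¬ BB G M Finset.univ b) :
    FS (zl G) (zn G) (2 * M.card - 2) true (Finset.univ : Finset V) := by
  classical
  have hne : a ≠ b := hab.ne
  have hk : 2 ≤ M.card := by
    have : ({a, b} : Finset V) ⊆ M := by
      intro z hz
      simp only [Finset.mem_insert, Finset.mem_singleton] at hz
      rcases hz with rfl | rfl
      · exact ha
      · exact hb
    have := Finset.card_le_card this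
    rwa [Finset.card_pair hne] at this
  -- alive = both
  have hab' : alive G rk M Finset.univ = both G rk M Finset.univ := by
    ext y
    rw [mem_alive, mem_both]
    simp
  -- forest bound
  set W : Finset V := Finset.univ.filter fun x => x ∉ M ∧ ∃ y, y ∉ M ∧ G.Adj x y with hW
  have hWm : ∀ x, x ∈ W ↔ x ∉ M ∧ ∃ y, y ∉ M ∧ G.Adj x y := by
    intro x; rw [hW]; simp
  have hbW : both G rk M Finset.univ ⊆ W := by
    intro y hy
    obtain ⟨p, h1, h2, h3, h4, h5, h6⟩ := mem_both.1 hy
    exact (hWm y).2 ⟨h3, p, h4, h1⟩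
  have hQ : qq G rk M Finset.univ + 2 ≤ M.card := by
    have key : ∀ c e : V, c ∈ M → e ∈ M → G.Adj c e → rk c = rk e + 1 →
        qq G rk M Finset.univ + 2 ≤ M.card := by
      intro c e hc he hce hrk
      have := forest_count (G := G) hr (M := M) (W := W) (Q := both G rk M Finset.univ) (P := {c})
        (by
          rw [Finset.disjoint_left]
          intro x hx hx'
          exact ((hWm x).1 hx').1 hx)
        hbW
        (by
          intro y hy
          obtain ⟨p, h1, h2, h3, h4, h5, h6⟩ := mem_both.1 hy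
          exact ⟨p, (hWm p).2 ⟨h4, y, h3, h1.symm⟩, h1, h2⟩)
        (by
          intro w hw
          obtain ⟨h1, _⟩ := (hWm w).1 hw
          obtain ⟨d, hd, hdw⟩ := hdom w (Finset.mem_univ _)
          have hne : w ≠ d := by rintro rfl; exact h1 hd
          exact ⟨d, hd, (hdw.resolve_left hne).symm⟩)
        (by simpa using hc)
        (by
          intro y hy
          rw [Finset.mem_singleton] at hy
          subst hy
          exact ⟨e, he, hce, hrk⟩)
        ⟨a, Finset.mem_union_left _ ha⟩
      rw [Finset.card_singleton] at this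
      unfold qq
      omega
    rcases hr.adj hab with h | h
    · exact key a b ha hb hab h
    · exact key b a hb ha hab.symm h
  have hE1 : EE G rk (M.erase a) (zn G Finset.univ a) + 2 ≤ qq G rk M Finset.univ + M.card := by
    unfold EE
    have h1 := Finset.card_le_card (alive_erase (G := G) (rk := rk) (M := M)
      (U := Finset.univ) (d := a))
    rw [hab'] at h1
    have h2 : (zn G Finset.univ a ∩ M.erase a).card ≤ ((M.erase a).erase b).card := by
      apply Finset.card_le_card
      intro x hx
      rw [Finset.mem_inter] at hx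
      refine Finset.mem_erase.2 ⟨?_, hx.2⟩
      rintro rfl
      exact (mem_zn.1 hx.1).2.2 hab
    rw [Finset.card_erase_of_mem (Finset.mem_erase.2 ⟨hne.symm, hb⟩),
      Finset.card_erase_of_mem ha] at h2
    unfold qq
    omega
  have hcond : qq G rk (M.erase a) (zn G Finset.univ a) + 2 ≤ M.card - 1 ∨
      EE G rk (M.erase a) (zn G Finset.univ a) = qq G rk (M.erase a) (zn G Finset.univ a) := by
    have h2 := qq_erase_le (G := G) (rk := rk) (M := M) (U := Finset.univ) (d := a)
    by_cases hq3 : qq G rk M Finset.univ + 3 ≤ M.card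
    · left; omega
    · by_cases hBa : BB G M Finset.univ a
      · have := BB_lt hr hBa
        left; omega
      · have hBb := hBB.resolve_left hBa
        by_cases hne' : ((M.erase a).erase b).Nonempty ∨ 0 < qq G rk M Finset.univ
        · have := qq_bound hr (M := M) (M' := (M.erase a).erase b) (U := Finset.univ)
            ((Finset.erase_subset _ _).trans (Finset.erase_subset _ _))
            (by
              intro x hx hxM hy
              obtain ⟨y, hy, hyM, hxy⟩ := hy
              obtain ⟨e, he, hxe⟩ := hdom x hx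
              have hne : x ≠ e := by rintro rfl; exact hxM he
              have hex := hxe.resolve_left hne
              refine ⟨e, Finset.mem_erase.2 ⟨?_, Finset.mem_erase.2 ⟨?_, he⟩⟩, hex⟩
              · rintro rfl
                exact hBb ⟨x, hx, hxM, hex, y, hy, hyM, hxy⟩
              · rintro rfl
                exact hBa ⟨x, hx, hxM, hex, y, hy, hyM, hxy⟩) hne'
          rw [Finset.card_erase_of_mem (Finset.mem_erase.2 ⟨hne.symm, hb⟩),
            Finset.card_erase_of_mem ha] at this
          omega
        · push Not at hne'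
          obtain ⟨h3, h4⟩ := hne'
          have h5 := congrArg Finset.card h3
          rw [Finset.card_erase_of_mem (Finset.mem_erase.2 ⟨hne.symm, hb⟩),
            Finset.card_erase_of_mem ha, Finset.card_empty] at h5
          right
          omega
  have h3 := main_aux hiso hr (M.card - 1) (M.erase a) (zn G Finset.univ a)
    (by rw [Finset.card_erase_of_mem ha]) (by omega) (hdom.erase a) (by omega) hcond
  have e : 2 * M.card - 2 = (2 * (M.card - 1) - 1) + 1 := by omega
  rw [e]
  exact FZ_proc hiso _ _ a h3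

theorem start (hiso : ∀ v, ∃ w, G.Adj v w) {rk : V → ℕ} (hr : Rooted G rk)
    {M : Finset V} (hdom : Dom G M Finset.univ) {a b : V} (ha : a ∈ M) (hb : b ∈ M)
    (hab : G.Adj a b) :
    FS (zl G) (zn G) (2 * M.card - 2) true (Finset.univ : Finset V) := by
  by_cases h : BB G M Finset.univ b
  · exact start_aux hiso hr hdom hb ha hab.symm (Or.inl h)
  · exact start_aux hiso hr hdom ha hb hab (Or.inr h)

/-! ### The LL-game -/

/-- 2-packing -/
def Pack (G : SimpleGraph V) (W : Finset V) : Prop :=
  ∀ w ∈ W, ∀ w' ∈ W, w ≠ w' → ¬ G.Adj w w' ∧ ∀ z, G.Adj z w → ¬ G.Adj z w'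

theorem FL_lower : ∀ (k : ℕ) (U W : Finset V), W ⊆ U → Pack G W →
    (FS (ll G) (ln G) k false U → 2 * W.card ≤ k) ∧
    (FS (ll G) (ln G) k true U → 2 * W.card ≤ k + 1) := by
  intro k
  induction k with
  | zero =>
    intro U W hWU hW
    have key : (∀ v, ¬ ll G U v) → W = ∅ := by
      intro h
      rw [Finset.eq_empty_iff_forall_notMem]
      intro w hw
      exact h w ⟨w, hWU hw, Or.inl rfl⟩
    exact ⟨fun h => by rw [key h]; simp, fun h => by rw [key h]; simp⟩
  | succ k ih =>
    intro U W hWU hW
    refine ⟨fun h => ?_, fun h => ?_⟩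
    · rcases W.eq_empty_or_nonempty with rfl | ⟨w, hw⟩
      · simp
      · have h1 := h w ⟨w, hWU hw, Or.inl rfl⟩
        refine (ih (ln G U w) W ?_ hW).2 h1
        intro w' hw'
        rw [mem_ln]
        refine ⟨hWU hw', ?_⟩
        by_cases hww : w = w'
        · subst hww; exact G.irrefl
        · exact (hW w hw w' hw' hww).1
    · rcases h with h | ⟨v, _, h⟩
      · have : W = ∅ := by
          rw [Finset.eq_empty_iff_forall_notMem]
          intro w hw
          exact h w ⟨w, hWU hw, Or.inl rfl⟩
        subst this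
        simp
      · have h1 := (ih (ln G U v) (W.filter fun x => ¬ G.Adj v x)
          (by
            intro x hx
            rw [Finset.mem_filter] at hx
            exact mem_ln.2 ⟨hWU hx.1, hx.2⟩)
          (by
            intro w hw w' hw' hne
            exact hW w (Finset.mem_filter.1 hw).1 w' (Finset.mem_filter.1 hw').1 hne)).1 h
        have h2 : (W.filter fun x => G.Adj v x).card ≤ 1 := by
          rw [Finset.card_le_one]
          intro x hx y hy
          rw [Finset.mem_filter] at hx hy
          by_contra hne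
          exact (hW x hx.1 y hy.1 hne).2 v hx.2 hy.2
        have h3 := Finset.card_filter_add_card_filter_not (s := W) (fun x => G.Adj v x)
        omega

theorem duality {rk : V → ℕ} (hr : Rooted G rk) : ∀ (n : ℕ) (U : Finset V), U.card ≤ n →
    ∃ W D : Finset V, W ⊆ U ∧ Pack G W ∧ Dom G D U ∧ D.card ≤ W.card := by
  classical
  intro n
  induction n with
  | zero =>
    intro U hU
    have : U = ∅ := by simpa using hU
    subst this
    exact ⟨∅, ∅, Finset.Subset.refl _, by intro w hw; simp at hw, by intro x hx; simp at hx, le_rfl⟩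
  | succ n ih =>
    intro U hU
    rcases U.eq_empty_or_nonempty with rfl | hne
    · exact ih ∅ (by simp)
    · obtain ⟨u, hu, hmax⟩ := Finset.exists_max_image U rk hne
      -- the parent
      obtain ⟨p, hp, hpu⟩ : ∃ p, (u = p ∨ G.Adj p u) ∧
          ∀ x, G.Adj u x → rk u = rk x + 1 → x = p := by
        by_cases h : ∃ p, G.Adj u p ∧ rk u = rk p + 1
        · obtain ⟨p, h1, h2⟩ := h
          exact ⟨p, Or.inr h1.symm, fun x hx hx' => hr.uniq hx h1 hx' h2⟩
        · push Not at h
          exact ⟨u, Or.inl rfl, fun x hx hx' => absurd hx' (h x hx)⟩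
      have hup : u ∉ zn G U p := by
        rw [mem_zn]
        rcases hp with h | h <;> tauto
      have hcard : (zn G U p).card ≤ n := by
        have : (zn G U p).card < U.card := by
          apply Finset.card_lt_card
          rw [Finset.ssubset_iff_of_subset zn_subset]
          exact ⟨u, hu, hup⟩
        omega
      obtain ⟨W, D, hW, hP, hD, hc⟩ := ih (zn G U p) hcard
      have hkey : ∀ w ∈ W, ¬ G.Adj u w ∧ ∀ z, G.Adj z u → ¬ G.Adj z w := by
        intro w hw
        have hw' := mem_zn.1 (hW hw)
        have hwu : w ≠ u := by rintro rfl; exact hup (hW hw)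
        have hmw := hmax w hw'.1
        constructor
        · intro huw
          rcases hr.adj huw with h | h
          · exact hw'.2.1 (hpu w huw h)
          · omega
        · intro z hzu hzw
          rcases hr.adj hzu with h | h
          · -- z is a child of u
            rcases hr.adj hzw with h' | h'
            · exact hwu (hr.uniq hzw hzu h' h)
            · omega
          · have := hpu z hzu.symm h
            subst this
            exact hw'.2.2 hzw
      refine ⟨insert u W, insert p D, ?_, ?_, ?_, ?_⟩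
      · exact Finset.insert_subset hu (hW.trans zn_subset)
      · intro w hw w' hw' hne
        rw [Finset.mem_insert] at hw hw'
        rcases hw with rfl | hw
        · rcases hw' with rfl | hw'
          · exact absurd rfl hne
          · exact hkey w' hw'
        · rcases hw' with rfl | hw'
          · obtain ⟨h1, h2⟩ := hkey w hw
            exact ⟨fun h => h1 h.symm, fun z hz hz' => h2 z hz' hz⟩
          · exact hP w hw w' hw' hne
      · intro x hx
        by_cases hxp : x = p ∨ G.Adj p x
        · exact ⟨p, Finset.mem_insert_self _ _, hxp⟩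
        · push Not at hxp
          obtain ⟨d, hd, hdx⟩ := hD x (mem_zn.2 ⟨hx, hxp⟩)
          exact ⟨d, Finset.mem_insert_of_mem hd, hdx⟩
      · have huW : u ∉ W := fun h => hup (hW h)
        rw [Finset.card_insert_of_notMem huW]
        exact (Finset.card_insert_le _ _).trans (by omega)

theorem FL_exists (hiso : ∀ v, ∃ w, G.Adj v w) : ∀ (n : ℕ) (U : Finset V), U.card ≤ n →
    FS (ll G) (ln G) (2 * n) true U := by
  intro n
  induction n with
  | zero =>
    intro U hU
    have : U = ∅ := by simpa using hU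
    subst this
    exact FS_over (by rintro v ⟨x, hx, _⟩; simp at hx) _ _
  | succ n ih =>
    intro U hU
    rcases U.eq_empty_or_nonempty with rfl | ⟨x, hx⟩
    · exact FS_over (by rintro v ⟨x, hx, _⟩; simp at hx) _ _
    · obtain ⟨v, hv⟩ := hiso x
      refine Or.inr ⟨v, ⟨x, hx, Or.inr hv.symm⟩, ?_⟩
      have hcard : (ln G U v).card < U.card := by
        apply Finset.card_lt_card
        rw [Finset.ssubset_iff_of_subset (show ln G U v ⊆ U from Finset.filter_subset _ _)]
        exact ⟨x, hx, by rw [mem_ln]; have := hv.symm; tauto⟩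
      intro s _
      apply ih
      have : (ln G (ln G U v) s).card ≤ (ln G U v).card :=
        Finset.card_le_card (Finset.filter_subset _ _)
      omega

/-- The comparison, in terms of the state-based games. -/
theorem compare (hiso : ∀ v, ∃ w, G.Adj v w) {rk : V → ℕ} (hr : Rooted G rk) [Nonempty V]
    {k : ℕ} (hk : FS (ll G) (ln G) k true (Finset.univ : Finset V)) :
    ∃ j, j < k ∧ FS (zl G) (zn G) j true (Finset.univ : Finset V) := by
  classical
  obtain ⟨W, D, hW, hP, hD, hc⟩ := duality (G := G) hr _ (Finset.univ : Finset V) le_rfl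
  have h1 := (FL_lower k _ W hW hP).2 hk
  have hDne : 1 ≤ D.card := by
    obtain ⟨x⟩ := ‹Nonempty V›
    obtain ⟨d, hd, _⟩ := hD x (Finset.mem_univ _)
    exact Finset.card_pos.2 ⟨d, hd⟩
  have h2 := (FZ_basic hiso D.card D _ le_rfl hD).1
  by_cases hlt : 2 * D.card - 1 < k
  · exact ⟨_, hlt, h2⟩
  · have hk' : k = (2 * D.card - 2) + 1 := by omega
    rw [hk'] at hk
    rcases hk with h | ⟨v, _, hv⟩
    · obtain ⟨x⟩ := ‹Nonempty V›
      exact absurd ⟨x, Finset.mem_univ _, Or.inl rfl⟩ (h x)
    · obtain ⟨W1, D1, hW1, hP1, hD1, hc1⟩ := duality (G := G) hr _ (ln G Finset.univ v) le_rfl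
      have h3 := (FL_lower _ _ W1 hW1 hP1).1 hv
      have hvln : v ∈ ln G Finset.univ v := mem_ln.2 ⟨Finset.mem_univ _, G.irrefl⟩
      obtain ⟨b, hb, hbv⟩ := hD1 v hvln
      have hdom : Dom G (insert v D1) Finset.univ := by
        intro x _
        by_cases hx : G.Adj v x
        · exact ⟨v, Finset.mem_insert_self _ _, Or.inr hx⟩
        · obtain ⟨d, hd, hdx⟩ := hD1 x (mem_ln.2 ⟨Finset.mem_univ _, hx⟩)
          exact ⟨d, Finset.mem_insert_of_mem hd, hdx⟩
      have hb1 : 1 ≤ D1.card := Finset.card_pos.2 ⟨b, hb⟩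
      rcases hbv with rfl | hbv
      · rw [Finset.insert_eq_of_mem hb] at hdom
        exact ⟨_, by omega, (FZ_basic hiso D1.card D1 _ le_rfl hdom).1⟩
      · have h4 := start hiso hr hdom (Finset.mem_insert_self v D1)
          (Finset.mem_insert_of_mem hb) hbv.symm
        have h5 := Finset.card_insert_le v D1
        exact ⟨_, by omega, h4⟩

/-- Trees are rooted. -/
theorem rooted_of_isTree (hG : G.IsTree) (r : V) : Rooted G (G.dist r) where
  adj := fun x y hxy => hG.dist_eq_dist_add_one_of_adj r hxy
  uniq := by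
    intro x y z hxy hxz h1 h2
    obtain ⟨q, hq, hq'⟩ := (hG.connected r x).exists_path_of_dist
    have key : ∀ y, G.Adj x y → G.dist r x = G.dist r y + 1 → y ∈ q.support := by
      intro y hxy h1
      obtain ⟨p, hp, hp'⟩ := (hG.connected r y).exists_path_of_dist
      refine hG.isAcyclic.mem_support_of_ne_mem_support_of_adj_of_isPath hq hp hxy ?_
      intro hx
      have h3 := SimpleGraph.dist_le (p.takeUntil x hx)
      have h4 := p.length_takeUntil_le_length hx
      omega
    rw [hG.isAcyclic.eq_penultimate_of_adj_end hq hxy (key y hxy h1),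
      hG.isAcyclic.eq_penultimate_of_adj_end hq hxz (key z hxz h2)]

end

end Pool.Agent.helper41.Dom
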