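import Pool.Agent.helper23.HB.Stmts

set_option autoImplicit false
set_option linter.all false

open MeasureTheory ProbabilityTheory Set Filter Topology
open scoped ENNReal NNReal

namespace Pool.Agent.helper41.HB

open Pool.Agent.helper23.HB

/-- probability that given blocks of a Brownian motion are good -/
theorem blocks_prob (hBLK : St_BLK) {Ω : Type} [MeasurableSpace Ω] {P : Measure Ω}
    [IsProbabilityMeasure P] {X X' : Ω → ℝ → ℝ} (hX : BMp P X) (hX' : BMp P X') {h : ℝ}
    (hh : 0 < h) {gd : Set (ℝ × ℝ)} (hgd : MeasurableSet gd) (s : Finset ℕ) :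
    P {ω | ∀ k ∈ s, blk h (X ω) k ∈ gd} = (P {ω | blk h (X' ω) 0 ∈ gd}) ^ s.card := by
  obtain ⟨h1, h2, h3⟩ := hBLK Ω P X hX h hh
  have hm : Measurable (fun ω => blk h (X ω)) := measurable_blk h hX.cont hX.meas
  have hm' : Measurable (fun ω => blk h (X' ω)) := measurable_blk h hX'.cont hX'.meas
  have hmk : ∀ k, Measurable (fun ω => blk h (X ω) k) := fun k => (measurable_pi_apply k).comp hm
  have e1 : {ω | ∀ k ∈ s, blk h (X ω) k ∈ gd} = ⋂ k ∈ s, (fun ω => blk h (X ω) k) ⁻¹' gd := by
    ext ω
    simp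
  have e2 := h1.measure_inter_preimage_eq_mul s (sets := fun _ => gd) (fun _ _ => hgd)
  rw [e1, e2]
  have e3 : P {ω | blk h (X' ω) 0 ∈ gd} = P {ω | blk h (X ω) 0 ∈ gd} := by
    have h4 := h3 Ω P X' hX'
    have hS : MeasurableSet {f : ℕ → ℝ × ℝ | f 0 ∈ gd} := (measurable_pi_apply 0) hgd
    have h5 := congrArg (fun μ => μ {f : ℕ → ℝ × ℝ | f 0 ∈ gd}) h4
    simp only [Measure.map_apply hm hS, Measure.map_apply hm' hS] at h5
    exact h5.symm
  have e4 : ∀ k ∈ s, P ((fun ω => blk h (X ω) k) ⁻¹' gd) = P {ω | blk h (X' ω) 0 ∈ gd} := by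
    intro k _
    have h5 := congrArg (fun μ => μ gd) (h2 k)
    simp only [Measure.map_apply (hmk k) hgd, Measure.map_apply (hmk 0) hgd] at h5
    rw [h5, e3]
    rfl
  rw [Finset.prod_congr rfl e4, Finset.prod_const]

/-- the zero path -/
def zPth : Pth := ⟨fun _ => 0, continuous_const, fun _ _ => rfl⟩

open Classical in
/-- extension by the zero path -/
noncomputable def ext (A : Set Lab) (f : A → Pth) : Lab → Pth := fun u =>
  if h : u ∈ A then f ⟨u, h⟩ else zPth

theorem ext_apply (A : Set Lab) (b : Lab → Pth) {u : Lab} (h : u ∈ A) :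
    ext A (fun u : A => b u) u = b u := by
  unfold ext
  rw [dif_pos h]

theorem measurable_ext (A : Set Lab) : Measurable (ext A) := by
  refine measurable_pi_lambda _ fun u => ?_
  by_cases h : u ∈ A
  · have : (fun f : A → Pth => ext A f u) = fun f => f ⟨u, h⟩ := by
      funext f
      unfold ext
      rw [dif_pos h]
    rw [this]
    exact measurable_pi_apply _
  · have : (fun f : A → Pth => ext A f u) = fun _ => zPth := by
      funext f
      unfold ext
      rw [dif_neg h]
    rw [this]
    exact measurable_const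

/-- label sets -/
def lset (w : Lab) : Option Bool → Set Lab
  | none => {u | u <:+ w}
  | some y => {u | y :: w <:+ u}

theorem lset_disj (w : Lab) : Pairwise (fun i j => Disjoint (lset w i) (lset w j)) := by
  intro i j hij
  rw [Set.disjoint_left]
  intro u hi hj
  have key : ∀ y : Bool, u <:+ w → y :: w <:+ u → False := by
    intro y h1 h2
    have h3 := (h2.trans h1).length_le
    simp at h3
  match i, j with
  | none, none => exact hij rfl
  | none, some y => exact key y hi hj
  | some y, none => exact key y hj hi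
  | some y, some y' =>
    have h1 : y :: w <:+ u := hi
    have h2 : y' :: w <:+ u := hj
    have h3 : y :: w <:+ y' :: w := List.suffix_of_suffix_length_le h1 h2 (by simp)
    have h4 := h3.eq_of_length (by simp)
    apply hij
    rw [(List.cons.inj h4).1]

/-- the path of a subtree, at absolute times -/
noncomputable def sub (τ : Lab → ℝ) (w : Lab) (y : Bool) (r : Lab) (b : Lab → Pth) (t : ℝ) : ℝ :=
  line (sh (y :: w) τ) (sh (y :: w) b) r (t - death τ w)

theorem sub_cont (τ : Lab → ℝ) (w : Lab) (y : Bool) (r : Lab) (b : Lab → Pth) :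
    Continuous (sub τ w y r b) :=
  (line_continuous _ _ r).comp (continuous_id.sub continuous_const)

theorem sub_meas (τ : Lab → ℝ) (w : Lab) (y : Bool) (r : Lab) (t : ℝ) :
    Measurable (fun b => sub τ w y r b t) := by
  have h1 := measurable_line_left r (t - death τ w)
  have h2 : Measurable (fun b : Lab → Pth => ((sh (y :: w) τ, sh (y :: w) b) :
      (Lab → ℝ) × (Lab → Pth))) := measurable_const.prodMk (measurable_sh _)
  exact h1.comp h2

/-- after the death of `w` the blocks of the line are the blocks of the path of the subtree -/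
theorem blk_sub {τ : Lab → ℝ} (hτ : ∀ u, 0 < τ u) (w : Lab) (y : Bool) (r : Lab) (b : Lab → Pth)
    {h : ℝ} (hh : 0 < h) {k : ℕ} (hk : death τ w ≤ k * h) :
    blk h (line τ b (r ++ y :: w)) k = blk h (sub τ w y r b) k := by
  have key : ∀ t, death τ w ≤ t → line τ b (r ++ y :: w) t =
      line τ b (y :: w) (death τ w) + sub τ w y r b t := by
    intro t ht
    have h1 := line_shift hτ b r (y :: w) (r := t - death τ w) (by linarith)
    rw [birth_cons] at h1
    have h2 : death τ w + (t - death τ w) = t := by ring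
    rw [h2] at h1
    exact h1
  unfold blk
  rw [key _ hk, key _ (by linarith : death τ w ≤ k * h + h)]
  refine Prod.ext ?_ ?_
  · show _ - _ = _ - _
    ring
  · show (⨆ r' : Icc (0 : ℝ) h, _) = ⨆ r' : Icc (0 : ℝ) h, _
    congr 1
    funext r'
    rw [key _ (by have := r'.2.1; linarith : death τ w ≤ k * h + r')]
    congr 1
    ring

/-- before the death of `w` the blocks of the line are the blocks of the line of `w` -/
theorem blk_old {τ : Lab → ℝ} (hτ : ∀ u, 0 < τ u) (w p : Lab) (b : Lab → Pth)
    {h : ℝ} (hh : 0 < h) {k : ℕ} (hk : k * h + h ≤ death τ w) :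
    blk h (line τ b (p ++ w)) k = blk h (line τ b w) k := by
  have key : ∀ t, t ≤ death τ w → line τ b (p ++ w) t = line τ b w t := fun t ht =>
    line_old_append hτ b p w ht
  unfold blk
  rw [key _ hk, key _ (by linarith : k * h ≤ death τ w)]
  refine Prod.ext rfl ?_
  show (⨆ r' : Icc (0 : ℝ) h, _) = ⨆ r' : Icc (0 : ℝ) h, _
  congr 1
  funext r'
  rw [key _ (by have := r'.2.2; linarith : k * h + r' ≤ death τ w)]

/-- the events -/
def evs (τ : Lab → ℝ) (w : Lab) (rr : Bool → Lab) (h : ℝ) (m n : ℕ) (gd : Set (ℝ × ℝ)) :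
    Option Bool → Set (Lab → Pth)
  | none => {b | ∀ k ∈ Finset.range m, blk h (line τ b w) k ∈ gd}
  | some y => {b | ∀ k ∈ Finset.Ico (m + 1) n, blk h (sub τ w y (rr y) b) k ∈ gd}

theorem evs_meas (τ : Lab → ℝ) (w : Lab) (rr : Bool → Lab) (h : ℝ) (m n : ℕ)
    {gd : Set (ℝ × ℝ)} (hgd : MeasurableSet gd) (i : Option Bool) :
    MeasurableSet (evs τ w rr h m n gd i) := by
  have key : ∀ (s : Finset ℕ) (X : (Lab → Pth) → ℝ → ℝ), (∀ b, Continuous (X b)) →
      (∀ t, Measurable fun b => X b t) →
      MeasurableSet {b | ∀ k ∈ s, blk h (X b) k ∈ gd} := by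
    intro s X h1 h2
    have h3 : Measurable (fun b => blk h (X b)) := measurable_blk h h1 h2
    have e : {b | ∀ k ∈ s, blk h (X b) k ∈ gd} = ⋂ k ∈ s, (fun b => blk h (X b) k) ⁻¹' gd := by
      ext b
      simp
    rw [e]
    exact Finset.measurableSet_biInter s fun k _ => ((measurable_pi_apply k).comp h3) hgd
  match i with
  | none =>
    refine key _ (fun b => line τ b w) (fun b => line_continuous _ _ _) (fun t => ?_)
    have h1 := measurable_line_left w t
    have h2 : Measurable (fun b : Lab → Pth => ((τ, b) : (Lab → ℝ) × (Lab → Pth))) :=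
      measurable_const.prodMk measurable_id
    exact h1.comp h2
  | some y => exact key _ (sub τ w y (rr y)) (sub_cont τ w y (rr y)) (sub_meas τ w y (rr y))

theorem evs_ext (τ : Lab → ℝ) (w : Lab) (rr : Bool → Lab) (h : ℝ) (m n : ℕ)
    (gd : Set (ℝ × ℝ)) (i : Option Bool) (b : Lab → Pth) :
    ext (lset w i) (fun u : lset w i => b u) ∈ evs τ w rr h m n gd i ↔
      b ∈ evs τ w rr h m n gd i := by
  match i with
  | none =>
    have e : line τ (ext (lset w none) (fun u : lset w none => b u)) w = line τ b w :=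
      line_congr (fun _ _ => rfl) (fun u hu => ext_apply _ b hu)
    show (∀ k ∈ Finset.range m, blk h (line τ _ w) k ∈ gd) ↔ _
    rw [e]
    rfl
  | some y =>
    have e : sub τ w y (rr y) (ext (lset w (some y)) (fun u : lset w (some y) => b u)) =
        sub τ w y (rr y) b := by
      funext t
      unfold sub
      have e2 : sh (y :: w) (ext (lset w (some y)) (fun u : lset w (some y) => b u)) =
          sh (y :: w) b := by
        funext p
        exact ext_apply _ b (show y :: w <:+ p ++ y :: w from List.suffix_append _ _)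
      rw [e2]
    show (∀ k ∈ Finset.Ico (m + 1) n, blk h (sub τ w y (rr y) _) k ∈ gd) ↔ _
    rw [e]
    rfl

theorem mB4 (hIND : St_IND) (hLINE : St_LINE) (hBLK : St_BLK) : St_B4 := by
  intro Ω _ P _ B hB τ hτ z h m n hh hmn hd1 hd2 gd hgd
  obtain ⟨w, x, p, q⟩ := z
  simp only [] at hd1 hd2
  set rr : Bool → Lab := fun y => if y = x then p else q with hrr
  have hrx : rr x = p := if_pos rfl
  have hrx' : rr (!x) = q := if_neg (by cases x <;> simp)
  have hL : ∀ v, BMp P (fun ω => line τ (B ω) v) := hLINE Ω P B hB τ hτ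
  have hL0 : BMp P (fun ω => (B ω [] : ℝ → ℝ)) := by
    have h1 := hL []
    have e : (fun ω => line τ (B ω) []) = fun ω => (B ω [] : ℝ → ℝ) := by
      funext ω t
      exact line_nil _ _ _
    rwa [e] at h1
  have hd0 : ∀ k : ℕ, m + 1 ≤ k → death τ w ≤ k * h := by
    intro k hk
    have h1 : ((m : ℝ) + 1) ≤ k := by exact_mod_cast hk
    have h2 : ((m : ℝ) + 1) * h ≤ k * h := mul_le_mul_of_nonneg_right h1 hh.le
    exact hd2.le.trans h2
  have hd3 : ∀ k : ℕ, k < m → (k : ℝ) * h + h ≤ death τ w := by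
    intro k hk
    have h1 : ((k : ℝ) + 1) ≤ m := by exact_mod_cast hk
    have h2 : ((k : ℝ) + 1) * h ≤ m * h := mul_le_mul_of_nonneg_right h1 hh.le
    linarith
  have hind := hIND Ω P Pth B hB.meas hB.indep (Option Bool) (lset w) (lset_disj w)
  set S := evs τ w rr h m n gd with hS
  have hprod := hind.measure_inter_preimage_eq_mul Finset.univ
    (sets := fun i => ext (lset w i) ⁻¹' (S i))
    (fun i _ => (measurable_ext _) (evs_meas τ w rr h m n hgd i))
  have hpre : ∀ i, (fun (ω : Ω) (u : lset w i) => B ω u) ⁻¹' (ext (lset w i) ⁻¹' (S i)) =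
      {ω | B ω ∈ S i} := by
    intro i
    ext ω
    exact evs_ext τ w rr h m n gd i (B ω)
  simp only [hpre] at hprod
  -- the probabilities
  have hq0 : P {ω | B ω ∈ S none} = (P {ω | blk h (B ω []) 0 ∈ gd}) ^ m := by
    have h1 := blocks_prob hBLK (hL w) hL0 hh hgd (Finset.range m)
    rw [Finset.card_range] at h1
    exact h1
  have hqy : ∀ y, P {ω | B ω ∈ S (some y)} = (P {ω | blk h (B ω []) 0 ∈ gd}) ^ (n - m - 1) := by
    intro y
    have h1 := blocks_prob hBLK (hL (rr y ++ y :: w)) hL0 hh hgd (Finset.Ico (m + 1) n)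
    rw [Nat.card_Ico] at h1
    have h2 : n - (m + 1) = n - m - 1 := by omega
    rw [h2] at h1
    rw [← h1]
    congr 1
    ext ω
    show (∀ k ∈ Finset.Ico (m + 1) n, blk h (sub τ w y (rr y) (B ω)) k ∈ gd) ↔
      ∀ k ∈ Finset.Ico (m + 1) n, blk h (line τ (B ω) (rr y ++ y :: w)) k ∈ gd
    refine forall₂_congr fun k hk => ?_
    rw [blk_sub hτ w y (rr y) (B ω) hh (hd0 k (Finset.mem_Ico.1 hk).1)]
  have hsub : {ω | (∀ k < n, blk h (line τ (B ω) (qu (w, x, p, q))) k ∈ gd) ∧
      ∀ k < n, blk h (line τ (B ω) (qv (w, x, p, q))) k ∈ gd} ⊆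
      ⋂ i ∈ (Finset.univ : Finset (Option Bool)), {ω | B ω ∈ S i} := by
    rintro ω ⟨h1, h2⟩
    have hgood : ∀ y, ∀ k < n, blk h (line τ (B ω) (rr y ++ y :: w)) k ∈ gd := by
      intro y
      by_cases hy : y = x
      · rw [hy, hrx]
        exact h1
      · have : y = !x := by cases x <;> cases y <;> simp_all
        rw [this, hrx']
        exact h2
    simp only [mem_iInter]
    intro i _
    match i with
    | none =>
      show ∀ k ∈ Finset.range m, blk h (line τ (B ω) w) k ∈ gd
      intro k hk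
      rw [Finset.mem_range] at hk
      have h3 := hgood x k (by omega)
      have e : rr x ++ x :: w = (rr x ++ [x]) ++ w := by simp
      rw [e, blk_old hτ w _ (B ω) hh (hd3 k hk)] at h3
      exact h3
    | some y =>
      show ∀ k ∈ Finset.Ico (m + 1) n, blk h (sub τ w y (rr y) (B ω)) k ∈ gd
      intro k hk
      rw [Finset.mem_Ico] at hk
      have h3 := hgood y k hk.2
      rw [blk_sub hτ w y (rr y) (B ω) hh (hd0 k hk.1)] at h3
      exact h3
  refine (measure_mono hsub).trans ?_
  rw [hprod, Fintype.prod_option, hq0, Fintype.prod_bool, hqy, hqy, ← pow_add, ← pow_add]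
  apply le_of_eq
  congr 1
  omega

end Pool.Agent.helper41.HB
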