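import Pool.Agent.helper23.HB.Stmts

set_option autoImplicit false
set_option linter.all false

open MeasureTheory ProbabilityTheory Set Filter Topology
open scoped ENNReal NNReal

namespace Pool.Agent.helper41.HB

open Pool.Agent.helper23.HB

namespace COV1

/-- subadditivity of `x ^ s` for finite sums -/
theorem rpow_sum_le {ι : Type*} (f : ι → ℝ≥0∞) {s : ℝ} (h0 : 0 < s) (h1 : s ≤ 1) (t : Finset ι) :
    (∑ i ∈ t, f i) ^ s ≤ ∑ i ∈ t, f i ^ s := by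
  classical
  induction t using Finset.induction_on with
  | empty => simp [ENNReal.zero_rpow_of_pos h0]
  | insert a t ha ih =>
    rw [Finset.sum_insert ha, Finset.sum_insert ha]
    exact (ENNReal.rpow_add_le_add_rpow _ _ h0.le h1).trans (add_le_add le_rfl ih)

/-- subadditivity of `x ^ s` for series -/
theorem rpow_tsum_le {ι : Type*} (f : ι → ℝ≥0∞) {s : ℝ} (h0 : 0 < s) (h1 : s ≤ 1) :
    (∑' i, f i) ^ s ≤ ∑' i, f i ^ s := by
  have hlim : Tendsto (fun t : Finset ι => (∑ i ∈ t, f i) ^ s) atTop (𝓝 ((∑' i, f i) ^ s)) :=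
    ((ENNReal.continuous_rpow_const (y := s)).tendsto _).comp ENNReal.summable.hasSum
  refine le_of_tendsto' hlim (fun t => ?_)
  exact (rpow_sum_le f h0 h1 t).trans (ENNReal.sum_le_tsum t)

theorem ind_rpow (p : Prop) {s : ℝ} (h0 : 0 < s) : (ind p) ^ s = ind p := by
  by_cases h : p
  · rw [ind_true h, ENNReal.one_rpow]
  · rw [ind_false h, ENNReal.zero_rpow_of_pos h0]

/-- at most one suffix of `u` is alive at time `t` -/
theorem tsum_ind_le {τ : Lab → ℝ} (h : ∀ u, 0 < τ u) (t : ℝ) (u : Lab) :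
    ∑' v : Alive τ t, ind ((v : Lab) <:+ u) ≤ 1 := by
  by_cases hex : ∃ v : Alive τ t, (v : Lab) <:+ u
  · obtain ⟨v, hv⟩ := hex
    rw [tsum_eq_single v]
    · exact ind_le_one _
    · intro v' hne
      apply ind_false
      intro hv'
      apply hne
      apply Subtype.ext
      rw [← anc_of_suffix h v.2 hv, ← anc_of_suffix h v'.2 hv']
  · have : ∀ v : Alive τ t, ind ((v : Lab) <:+ u) = 0 := fun v => ind_false fun hv => hex ⟨v, hv⟩
    simp [this]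

/-- mass of the oscillations after time `m` in the subtree of `v` -/
noncomputable def ck (τ : Lab → ℝ) (φ : Lab → ℕ → ℝ≥0∞) (m : ℕ) (v : Lab) (k : ℕ) : ℝ≥0∞ :=
  ∑' u : Lab, ind (v <:+ u) * (ind (u ∈ Alive τ (((k + m : ℕ) : ℝ) + 1)) * φ u (k + m))

noncomputable def rho (τ : Lab → ℝ) (φ : Lab → ℕ → ℝ≥0∞) (m : ℕ) (v : Lab) : ℝ≥0∞ :=
  ∑' k : ℕ, ck τ φ m v k

theorem sum_rho (τ : Lab → ℝ) (h : ∀ u, 0 < τ u) (φ : Lab → ℕ → ℝ≥0∞) (m : ℕ) {s : ℝ} (h0 : 0 < s)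
    (h1 : s ≤ 1) : ∑' v : Alive τ m, rho τ φ m v ^ s ≤
      ∑' k : ℕ, ∑' u : Lab, ind (u ∈ Alive τ (((k + m : ℕ) : ℝ) + 1)) * φ u (k + m) ^ s := by
  have e1 : ∀ v : Alive τ m, rho τ φ m v ^ s ≤ ∑' k : ℕ, ∑' u : Lab,
      ind ((v : Lab) <:+ u) * (ind (u ∈ Alive τ (((k + m : ℕ) : ℝ) + 1)) * φ u (k + m) ^ s) := by
    intro v
    refine (rpow_tsum_le _ h0 h1).trans (ENNReal.tsum_le_tsum fun k => ?_)
    refine (rpow_tsum_le _ h0 h1).trans (ENNReal.tsum_le_tsum fun u => ?_)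
    rw [ENNReal.mul_rpow_of_nonneg _ _ h0.le, ENNReal.mul_rpow_of_nonneg _ _ h0.le, ind_rpow _ h0,
      ind_rpow _ h0]
  refine (ENNReal.tsum_le_tsum e1).trans ?_
  rw [ENNReal.tsum_comm]
  refine ENNReal.tsum_le_tsum fun k => ?_
  rw [ENNReal.tsum_comm]
  refine ENNReal.tsum_le_tsum fun u => ?_
  rw [ENNReal.tsum_mul_right]
  exact (mul_le_mul_left (tsum_ind_le h m u) _).trans (one_mul _).le

theorem tail_eq (τ : Lab → ℝ) (φ : Lab → ℕ → ℝ≥0∞) (s : ℝ)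
    (hfin : (∑' m : ℕ, ∑' u : Lab, ind (u ∈ Alive τ ((m : ℝ) + 1)) * φ u m ^ s) ≠ ∞) :
    Tendsto (fun m : ℕ => ∑' k : ℕ, ∑' u : Lab,
      ind (u ∈ Alive τ (((k + m : ℕ) : ℝ) + 1)) * φ u (k + m) ^ s) atTop (𝓝 0) :=
  ENNReal.tendsto_sum_nat_add
    (fun m : ℕ => ∑' u : Lab, ind (u ∈ Alive τ ((m : ℝ) + 1)) * φ u m ^ s) hfin

/-- the direction of `u` stays close to the direction of its ancestor at time `m` -/
theorem close (τ : Lab → ℝ) (hτ : NE τ) (D : Lab → ℝ → ℂ) (φ : Lab → ℕ → ℝ≥0∞)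
    (hD : ∀ x u t, 0 ≤ t → t ≤ death τ u → D (x :: u) t = D u t)
    (hφ : ∀ u (m : ℕ) (r : ℝ), 0 ≤ r → r ≤ 1 → ‖D u (m + r) - D u m‖ₑ ≤ φ u m)
    (m : ℕ) {t : ℝ} (ht : (m : ℝ) ≤ t) {u : Lab} (hu : u ∈ Alive τ t) :
    edist (D u t) (D (anc τ m u) m) ≤ rho τ φ m (anc τ m u) := by
  have hm0 : (0 : ℝ) ≤ m := Nat.cast_nonneg m
  have ht0 : 0 ≤ t := hm0.trans ht
  set v := anc τ m u with hv
  have hvA : v ∈ Alive τ m := anc_mem hm0 (lt_of_le_of_lt ht hu.2)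
  have hvu : v <:+ u := anc_suffix τ m u
  obtain ⟨N, hN⟩ : ∃ N : ℕ, ⌊t⌋₊ = m + N := by
    have : m ≤ ⌊t⌋₊ := Nat.le_floor ht
    exact ⟨⌊t⌋₊ - m, by omega⟩
  have hJ1 : ((m + N : ℕ) : ℝ) ≤ t := by rw [← hN]; exact Nat.floor_le ht0
  have hJ2 : t < ((m + N : ℕ) : ℝ) + 1 := by rw [← hN]; exact Nat.lt_floor_add_one t
  obtain ⟨p, hp⟩ := hτ.exists_desc hJ2.le hu
  set u' := p ++ u with hu'
  have huu' : u <:+ u' := List.suffix_append p u
  have hvu' : v <:+ u' := hvu.trans huu'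
  have hold : ∀ (w w' : Lab) (r : ℝ), w <:+ w' → 0 ≤ r → r ≤ death τ w → D w' r = D w r := by
    rintro w _ r ⟨q, rfl⟩ h0 h1
    exact old_append hτ.1 hD q w h0 h1
  have hut : D u' t = D u t := hold u u' t huu' ht0 hu.2.le
  have hvm : D u' m = D v m := hold v u' m hvu' hm0 hvA.2.le
  -- the ancestors
  set w : ℕ → Lab := fun k => anc τ (((k + m : ℕ) : ℝ) + 1) u' with hw
  have hwA : ∀ k, k ≤ N → w k ∈ Alive τ (((k + m : ℕ) : ℝ) + 1) := by
    intro k hk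
    apply anc_mem (by positivity)
    refine lt_of_le_of_lt ?_ hp.2
    have : ((k + m : ℕ) : ℝ) ≤ ((m + N : ℕ) : ℝ) := by exact_mod_cast (by omega : k + m ≤ m + N)
    linarith
  have hwv : ∀ k, k ≤ N → v <:+ w k := by
    intro k hk
    have h1 : anc τ m (w k) = anc τ m u' := by
      apply anc_anc hτ.1 hm0
      · push_cast
        have : (0 : ℝ) ≤ k := Nat.cast_nonneg k
        linarith
      · refine lt_of_le_of_lt ?_ hp.2
        have : ((k + m : ℕ) : ℝ) ≤ ((m + N : ℕ) : ℝ) := by exact_mod_cast (by omega : k + m ≤ m + N)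
        linarith
    have h2 : anc τ m u' = v := anc_of_suffix hτ.1 hvA hvu'
    rw [h2] at h1
    rw [← h1]
    exact anc_suffix τ m (w k)
  have hstep : ∀ k, k ≤ N → ∀ r : ℝ, 0 ≤ r → r ≤ 1 →
      edist (D u' (((k + m : ℕ) : ℝ) + r)) (D u' ((k + m : ℕ) : ℝ)) ≤ ck τ φ m v k := by
    intro k hk r hr0 hr1
    have hws : w k <:+ u' := anc_suffix _ _ _
    have hd := (hwA k hk).2
    rw [hold (w k) u' _ hws (by positivity) (by linarith),
      hold (w k) u' _ hws (by positivity) (by linarith), edist_eq_enorm_sub]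
    refine (hφ (w k) (k + m) r hr0 hr1).trans ?_
    unfold ck
    refine le_trans (le_of_eq ?_) (ENNReal.le_tsum (w k))
    rw [ind_true (hwv k hk), ind_true (hwA k hk), one_mul, one_mul]
  have hind : ∀ K, K ≤ N → edist (D u' ((K + m : ℕ) : ℝ)) (D u' m) ≤
      ∑ k ∈ Finset.range K, ck τ φ m v k := by
    intro K
    induction K with
    | zero =>
      intro _
      simp
    | succ K ih =>
      intro hK
      rw [Finset.sum_range_succ, add_comm (∑ k ∈ Finset.range K, ck τ φ m v k)]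
      refine (edist_triangle _ (D u' ((K + m : ℕ) : ℝ)) _).trans
        (add_le_add ?_ (ih (by omega)))
      have h1 := hstep K (by omega) 1 zero_le_one le_rfl
      have e : ((K + 1 + m : ℕ) : ℝ) = ((K + m : ℕ) : ℝ) + 1 := by push_cast; ring
      rw [e]
      exact h1
  have hlast : edist (D u' t) (D u' ((N + m : ℕ) : ℝ)) ≤ ck τ φ m v N := by
    have e0 : ((N + m : ℕ) : ℝ) = ((m + N : ℕ) : ℝ) := by rw [add_comm]
    have h1 := hstep N le_rfl (t - ((N + m : ℕ) : ℝ)) (by rw [e0]; linarith) (by rw [e0]; linarith)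
    have e : ((N + m : ℕ) : ℝ) + (t - ((N + m : ℕ) : ℝ)) = t := by ring
    rw [e] at h1
    exact h1
  rw [← hut, ← hvm]
  calc edist (D u' t) (D u' m)
      ≤ edist (D u' t) (D u' ((N + m : ℕ) : ℝ)) + edist (D u' ((N + m : ℕ) : ℝ)) (D u' m) :=
        edist_triangle _ _ _
    _ ≤ ck τ φ m v N + ∑ k ∈ Finset.range N, ck τ φ m v k := add_le_add hlast (hind N le_rfl)
    _ = ∑ k ∈ Finset.range (N + 1), ck τ φ m v k := by rw [Finset.sum_range_succ, add_comm]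
    _ ≤ rho τ φ m v := ENNReal.sum_le_tsum _

/-- covering of the limit set by balls -/
theorem cover (τ : Lab → ℝ) (hτ : NE τ) (Z D : Lab → ℝ → ℂ) (φ : Lab → ℕ → ℝ≥0∞)
    (hD : ∀ x u t, 0 ≤ t → t ≤ death τ u → D (x :: u) t = D u t)
    (hZ : ∀ u t, 0 ≤ t → ‖D u t‖ = 1 ∧ ‖Z u t - D u t‖ = 1 - ‖Z u t‖)
    (hφ : ∀ u (m : ℕ) (r : ℝ), 0 ≤ r → r ≤ 1 → ‖D u (m + r) - D u m‖ₑ ≤ φ u m) (m : ℕ) :
    LSet τ Z ⊆ ⋃ v : Alive τ m, Metric.closedEBall (D v m) (rho τ φ m v) := by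
  rintro ζ ⟨hζ, t, u, ht, hu, hlim⟩
  have hfin : (Alive τ m).Finite := hτ.finite_Alive m
  have : Finite (Alive τ m) := hfin
  have hclosed : IsClosed (⋃ v : Alive τ m, Metric.closedEBall (D v m) (rho τ φ m v)) :=
    isClosed_iUnion_of_finite fun v => Metric.isClosed_closedEBall
  have hnorm : Tendsto (fun n => ‖Z (u n) (t n) - D (u n) (t n)‖) atTop (𝓝 0) := by
    have h1 : Tendsto (fun n => 1 - ‖Z (u n) (t n)‖) atTop (𝓝 (1 - ‖ζ‖)) :=
      tendsto_const_nhds.sub hlim.norm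
    rw [hζ, sub_self] at h1
    refine h1.congr' ?_
    filter_upwards [ht.eventually_ge_atTop 0] with n hn
    exact (hZ (u n) (t n) hn).2.symm
  have hlimD : Tendsto (fun n => D (u n) (t n)) atTop (𝓝 ζ) := by
    have h1 := hlim.sub (tendsto_zero_iff_norm_tendsto_zero.2 hnorm)
    rw [sub_zero] at h1
    refine h1.congr (fun n => ?_)
    ring
  refine hclosed.mem_of_tendsto hlimD ?_
  filter_upwards [ht.eventually_ge_atTop (m : ℝ)] with n hn
  have hm0 : (0 : ℝ) ≤ m := Nat.cast_nonneg m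
  refine mem_iUnion.2 ⟨⟨anc τ m (u n), anc_mem hm0 (lt_of_le_of_lt hn (hu n).2)⟩, ?_⟩
  exact close τ hτ D φ hD hφ m hn (hu n)

end COV1

open COV1

theorem mCOV1 (hDIM : St_DIM) : St_COV1 := by
  intro τ Z D φ s hτ h0 h1 hD hZ hφ hfin
  apply hDIM.2.1 _ s h0
  intro ε hε
  have hlim := (tail_eq τ φ s hfin)
  have hlim2 : Tendsto (fun m : ℕ => (2 : ℝ≥0∞) ^ s * ∑' k : ℕ, ∑' u : Lab,
      ind (u ∈ Alive τ (((k + m : ℕ) : ℝ) + 1)) * φ u (k + m) ^ s) atTop (𝓝 0) := by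
    have h2 := ENNReal.Tendsto.const_mul hlim (a := (2 : ℝ≥0∞) ^ s)
      (Or.inr (ENNReal.rpow_ne_top_of_nonneg h0.le ENNReal.ofNat_ne_top))
    rwa [mul_zero] at h2
  obtain ⟨m, hm⟩ := (hlim2.eventually (gt_mem_nhds hε)).exists
  have hfinA : (Alive τ m).Finite := hτ.finite_Alive m
  refine ⟨Alive τ m, inferInstance, fun v => Metric.closedEBall (D v m) (rho τ φ m v),
    cover τ hτ Z D φ hD hZ hφ m, ?_⟩
  refine le_trans ?_ hm.le
  calc ∑' v : Alive τ m, Metric.ediam (Metric.closedEBall (D v m) (rho τ φ m v)) ^ s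
      ≤ ∑' v : Alive τ m, (2 : ℝ≥0∞) ^ s * rho τ φ m v ^ s := by
        refine ENNReal.tsum_le_tsum fun v => ?_
        rw [← ENNReal.mul_rpow_of_nonneg _ _ h0.le]
        exact ENNReal.rpow_le_rpow Metric.ediam_closedEBall_le h0.le
    _ = (2 : ℝ≥0∞) ^ s * ∑' v : Alive τ m, rho τ φ m v ^ s := ENNReal.tsum_mul_left
    _ ≤ _ := mul_le_mul_right (sum_rho τ hτ.1 φ m h0 h1) _

end Pool.Agent.helper41.HB
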