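import Pool.Agent.helper23.HB.Stmts

set_option autoImplicit false
set_option linter.all false

open MeasureTheory ProbabilityTheory Set Filter Topology
open scoped ENNReal NNReal

namespace Pool.Agent.helper41.HB

open Pool.Agent.helper23.HB

namespace TRI

/-- labels of the `k`-th trial -/
def lab (k : ℕ) : Set Lab := {u | vk k <:+ u}

theorem aux {k l : ℕ} (hkl : k < l) {u : Lab} (h1 : vk k <:+ u) (h2 : vk l <:+ u) : False := by
  have h3 : vk k <:+ vk l := List.suffix_of_suffix_length_le h1 h2 (by simp [vk]; omega)
  have h4 : vk k <:+ List.replicate l false := by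
    have h5 : vk l = true :: List.replicate l false := rfl
    rw [h5, List.suffix_cons_iff] at h3
    rcases h3 with h3 | h3
    · exfalso
      have := congrArg List.length h3
      simp [vk] at this
      omega
    · exact h3
  have h6 : true ∈ List.replicate l false := h4.mem (by simp [vk])
  have h7 := List.eq_of_mem_replicate h6
  simp at h7

theorem lab_disj : Pairwise (fun i j => Disjoint (lab i) (lab j)) := by
  intro i j hij
  rw [Set.disjoint_left]
  intro u hi hj
  rcases lt_or_gt_of_ne hij with h | h
  · exact aux h hi hj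
  · exact aux h hj hi

/-- the arrays of the `k`-th trial as a function of the variables with labels in `lab k` -/
def gk (k : ℕ) (f : lab k → ℝ × Pth) : (Lab → ℝ) × (Lab → Pth) :=
  (fun p => (f ⟨p ++ vk k, List.suffix_append p (vk k)⟩).1,
    fun p => (f ⟨p ++ vk k, List.suffix_append p (vk k)⟩).2)

theorem measurable_gk (k : ℕ) : Measurable (gk k) :=
  (measurable_pi_lambda _ fun p => measurable_fst.comp (measurable_pi_apply _)).prodMk
    (measurable_pi_lambda _ fun p => measurable_snd.comp (measurable_pi_apply _))

end TRI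

open TRI

theorem mTRI (hIND : St_IND) (hJNT : St_JNT) (hSH : St_SH) : St_TRI := by
  intro Ω _ P _ β T B hβ hT hB hTB G hG hne
  have h1 := hJNT Ω P ℝ Pth T B hT.meas hB.meas hT.indep hB.indep hTB
  have h2 := hIND Ω P (ℝ × Pth) (fun ω u => (T ω u, B ω u))
    (fun u => (hT.meas u).prodMk (hB.meas u)) h1 ℕ lab lab_disj
  have h3 := h2.comp gk measurable_gk
  have h4 : iIndepFun (fun (k : ℕ) (ω : Ω) => (sh (vk k) (T ω), sh (vk k) (B ω))) P := h3
  have hmT : Measurable T := measurable_pi_lambda _ hT.meas
  have hmB : Measurable B := measurable_pi_lambda _ hB.meas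
  have hm : ∀ k, Measurable (fun ω => (sh (vk k) (T ω), sh (vk k) (B ω))) := fun k =>
    ((measurable_sh (vk k)).comp hmT).prodMk ((measurable_sh (vk k)).comp hmB)
  set s : ℕ → Set Ω := fun k => {ω | (sh (vk k) (T ω), sh (vk k) (B ω)) ∈ G} with hs
  have hsm : ∀ k, MeasurableSet (s k) := fun k => hm k hG
  have hP : ∀ k, P (s k) = P {ω | (T ω, B ω) ∈ G} := by
    intro k
    obtain ⟨-, -, h5⟩ := hSH Ω P β T B hβ hT hB hTB (vk k)
    have h6 := congrArg (fun μ => μ G) h5
    simp only [Measure.map_apply (hm k) hG, Measure.map_apply (hmT.prodMk hmB) hG] at h6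
    exact h6
  have hind : iIndepSet s P := by
    rw [iIndepSet_iff_meas_biInter hsm]
    intro t
    exact h4.measure_inter_preimage_eq_mul t (sets := fun _ => G) (fun _ _ => hG)
  have hsum : ∑' k, P (s k) = ∞ := by
    simp only [hP]
    exact ENNReal.tsum_const_eq_top_of_ne_zero hne
  have h5 := measure_limsup_eq_one hsm hind hsum
  have h6 : limsup s atTop ∈ ae P := by
    rw [mem_ae_iff_prob_eq_one (MeasurableSet.measurableSet_limsup hsm)]
    exact h5
  filter_upwards [h6] with ω hω
  exact mem_limsup_iff_frequently_mem.1 hω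

end Pool.Agent.helper41.HB
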