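import Pool.Agent.helper23.HB.Stmts2

set_option autoImplicit false
set_option linter.all false

open MeasureTheory ProbabilityTheory Set Filter Topology
open scoped ENNReal NNReal

namespace Pool.Agent.helper41.HB

open Pool.Agent.helper23.HB

theorem birth_single (τ : Lab → ℝ) (x : Bool) : birth τ [x] = τ [] := by
  rw [birth_cons]
  simp [death]

theorem mem_sub {τ : Lab → ℝ} {x : Bool} {p : Lab} {t : ℝ} :
    p ++ [x] ∈ Alive τ t ↔ p ∈ Alive (sh [x] τ) (t - τ []) := by
  rw [← append_mem_Alive, birth_single]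
  have : τ [] + (t - τ []) = t := by ring
  rw [this]

theorem cases_lab (u : Lab) : u = [] ∨ ∃ p x, u = p ++ [x] := by
  rcases List.eq_nil_or_concat u with h | ⟨p, x, h⟩
  · exact Or.inl h
  · exact Or.inr ⟨p, x, by rw [h, List.concat_eq_append]⟩

theorem ne_of {τ : Lab → ℝ} (h0 : 0 < τ []) (h : ∀ x, NE (sh [x] τ)) : NE τ := by
  refine ⟨fun u => ?_, fun t => ?_⟩
  · rcases cases_lab u with rfl | ⟨p, x, rfl⟩
    · exact h0
    · exact (h x).1 p
  · have h1 : ∀ x, ((fun p : Lab => p ++ [x]) '' {p | birth (sh [x] τ) p ≤ t - τ []}).Finite :=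
      fun x => ((h x).2 _).image _
    refine ((Set.finite_singleton ([] : Lab)).union ((h1 false).union (h1 true))).subset ?_
    intro u hu
    rcases cases_lab u with rfl | ⟨p, x, rfl⟩
    · left; rfl
    · right
      have h2 : birth (sh [x] τ) p ≤ t - τ [] := by
        have h3 : birth τ (p ++ [x]) ≤ t := hu
        rw [birth_append, birth_single] at h3
        linarith
      cases x
      · left; exact ⟨p, h2, rfl⟩
      · right; exact ⟨p, h2, rfl⟩

/-- particles alive after the first splitting -/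
theorem alive_eq {τ : Lab → ℝ} {t : ℝ} (ht : τ [] ≤ t) :
    Alive τ t = (fun p : Lab => p ++ [false]) '' Alive (sh [false] τ) (t - τ []) ∪
      (fun p : Lab => p ++ [true]) '' Alive (sh [true] τ) (t - τ []) := by
  ext u
  constructor
  · intro hu
    rcases cases_lab u with rfl | ⟨p, x, rfl⟩
    · exfalso
      have h1 : t < death τ [] := hu.2
      simp only [death, birth_nil, zero_add] at h1
      linarith
    · have h1 := mem_sub.1 hu
      cases x
      · left; exact ⟨p, h1, rfl⟩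
      · right; exact ⟨p, h1, rfl⟩
  · rintro (⟨p, hp, rfl⟩ | ⟨p, hp, rfl⟩)
    · exact mem_sub.2 hp
    · exact mem_sub.2 hp

theorem inj_app (x : Bool) : Function.Injective (fun p : Lab => p ++ [x]) :=
  fun _ _ h => List.append_cancel_right h

theorem disj_app (A B : Set Lab) : Disjoint ((fun p : Lab => p ++ [false]) '' A)
    ((fun p : Lab => p ++ [true]) '' B) := by
  rw [Set.disjoint_left]
  rintro _ ⟨p, -, rfl⟩ ⟨q, -, h⟩
  have h1 : q ++ [true] = p ++ [false] := h
  have h2 := List.append_inj_right' h1 rfl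
  simp at h2

theorem ncard_eq {τ : Lab → ℝ} (h : ∀ x, NE (sh [x] τ)) {t : ℝ} (ht : τ [] ≤ t) :
    (Alive τ t).ncard = (Alive (sh [false] τ) (t - τ [])).ncard +
      (Alive (sh [true] τ) (t - τ [])).ncard := by
  rw [alive_eq ht, Set.ncard_union_eq (disj_app _ _) (((h false).finite_Alive _).image _)
    (((h true).finite_Alive _).image _), Set.ncard_image_of_injective _ (inj_app false),
    Set.ncard_image_of_injective _ (inj_app true)]

theorem sum_eq {τ : Lab → ℝ} (h : ∀ x, NE (sh [x] τ)) {t : ℝ} (ht : τ [] ≤ t) (F : Lab → ℝ) :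
    ∑ᶠ v ∈ Alive τ t, F v = ∑ᶠ p ∈ Alive (sh [false] τ) (t - τ []), F (p ++ [false]) +
      ∑ᶠ p ∈ Alive (sh [true] τ) (t - τ []), F (p ++ [true]) := by
  rw [alive_eq ht, finsum_mem_union (disj_app _ _) (((h false).finite_Alive _).image _)
    (((h true).finite_Alive _).image _), finsum_mem_image (inj_app false).injOn,
    finsum_mem_image (inj_app true).injOn]

/-- sum over the living particles in terms of the average -/
theorem sum_avg {τ : Lab → ℝ} (h : NE τ) (t : ℝ) (F : Lab → ℝ) :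
    ∑ᶠ v ∈ Alive τ t, F v = ((Alive τ t).ncard : ℝ) * avg τ t F := by
  unfold avg
  rcases Nat.eq_zero_or_pos (Alive τ t).ncard with h0 | h0
  · have h1 : Alive τ t = ∅ := (Set.ncard_eq_zero (h.finite_Alive t)).1 h0
    rw [h1]
    simp
  · rw [← mul_assoc, mul_inv_cancel₀ (by positivity), one_mul]

theorem lset_sub {τ : Lab → ℝ} {Z : Lab → ℝ → ℂ} {Z' : Bool → Lab → ℝ → ℂ}
    (hZ : ∀ x, ∀ p t, p ∈ Alive (sh [x] τ) t → Z' x p t = Z (p ++ [x]) (τ [] + t)) (x : Bool) :
    LSet (sh [x] τ) (Z' x) ⊆ LSet τ Z := by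
  rintro ζ ⟨h1, t, u, ht, hu, hlim⟩
  refine ⟨h1, fun n => τ [] + t n, fun n => u n ++ [x], tendsto_atTop_add_const_left _ _ ht,
    fun n => ?_, ?_⟩
  · rw [mem_sub]
    have : τ [] + t n - τ [] = t n := by ring
    rw [this]
    exact hu n
  · refine hlim.congr (fun n => ?_)
    exact hZ x _ _ (hu n)

theorem lset_of_freq {τ : Lab → ℝ} {Z : Lab → ℝ → ℂ} {Z' : Bool → Lab → ℝ → ℂ}
    (hZ : ∀ x, ∀ p t, p ∈ Alive (sh [x] τ) t → Z' x p t = Z (p ++ [x]) (τ [] + t)) (x : Bool)
    {ζ : ℂ} (hζ : ‖ζ‖ = 1) {t : ℕ → ℝ} {u : ℕ → Lab} (ht : Tendsto t atTop atTop)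
    (hlim : Tendsto (fun n => Z (u n) (t n)) atTop (𝓝 ζ))
    (hf : ∃ᶠ n in atTop, ∃ p, u n = p ++ [x] ∧ p ∈ Alive (sh [x] τ) (t n - τ [])) :
    ζ ∈ LSet (sh [x] τ) (Z' x) := by
  obtain ⟨φ, hφ, hp⟩ := extraction_of_frequently_atTop hf
  choose p hp1 hp2 using hp
  refine ⟨hζ, fun n => t (φ n) - τ [], p, ?_, hp2, ?_⟩
  · exact tendsto_atTop_add_const_right _ _ (ht.comp hφ.tendsto_atTop)
  · refine (hlim.comp hφ.tendsto_atTop).congr (fun n => ?_)
    rw [hZ x _ _ (hp2 n), Function.comp_apply, hp1 n]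
    congr 1
    ring

theorem lset_eq {τ : Lab → ℝ} {Z : Lab → ℝ → ℂ} {Z' : Bool → Lab → ℝ → ℂ}
    (hZ : ∀ x, ∀ p t, p ∈ Alive (sh [x] τ) t → Z' x p t = Z (p ++ [x]) (τ [] + t)) :
    LSet τ Z = LSet (sh [false] τ) (Z' false) ∪ LSet (sh [true] τ) (Z' true) := by
  apply Subset.antisymm
  · rintro ζ ⟨h1, t, u, ht, hu, hlim⟩
    have hev : ∀ᶠ n in atTop, (∃ p, u n = p ++ [false] ∧ p ∈ Alive (sh [false] τ) (t n - τ [])) ∨
        (∃ p, u n = p ++ [true] ∧ p ∈ Alive (sh [true] τ) (t n - τ [])) := by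
      filter_upwards [ht.eventually_ge_atTop (τ [])] with n hn
      have h2 := hu n
      rw [alive_eq hn] at h2
      rcases h2 with ⟨p, hp, h3⟩ | ⟨p, hp, h3⟩
      · left; exact ⟨p, h3.symm, hp⟩
      · right; exact ⟨p, h3.symm, hp⟩
    rcases frequently_or_distrib.1 hev.frequently with h | h
    · left; exact lset_of_freq hZ false h1 ht hlim h
    · right; exact lset_of_freq hZ true h1 ht hlim h
  · exact union_subset (lset_sub hZ false) (lset_sub hZ true)

theorem dimM_le_of {μ : Measure ℂ} {A : Set ℂ} (h1 : MeasurableSet A) (h2 : A ⊆ circ)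
    (h3 : μ (circ \ A) = 0) : dimM μ ≤ dimH A :=
  iInf_le_of_le A (iInf_le_of_le h1 (iInf_le_of_le h2 (iInf_le _ h3)))

theorem exists_of_dimM_lt {μ : Measure ℂ} {c : ℝ≥0∞} (h : dimM μ < c) :
    ∃ A : Set ℂ, MeasurableSet A ∧ A ⊆ circ ∧ μ (circ \ A) = 0 ∧ dimH A < c := by
  unfold dimM at h
  simp only [iInf_lt_iff] at h
  obtain ⟨A, h1, h2, h3, h4⟩ := h
  exact ⟨A, h1, h2, h3, h4⟩

theorem dimM_mix {μ μ' ν : Measure ℂ} (h : ∀ s, ν s = 0 ↔ μ s = 0 ∧ μ' s = 0) :
    dimM ν = max (dimM μ) (dimM μ') := by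
  apply le_antisymm
  · apply le_of_forall_gt
    intro c hc
    obtain ⟨A, a1, a2, a3, a4⟩ := exists_of_dimM_lt (lt_of_le_of_lt (le_max_left _ _) hc)
    obtain ⟨B, b1, b2, b3, b4⟩ := exists_of_dimM_lt (lt_of_le_of_lt (le_max_right _ _) hc)
    refine lt_of_le_of_lt (dimM_le_of (A := A ∪ B) (a1.union b1) (union_subset a2 b2) ?_) ?_
    · rw [h]
      exact ⟨measure_mono_null (diff_subset_diff_right subset_union_left) a3,
        measure_mono_null (diff_subset_diff_right subset_union_right) b3⟩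
    · rw [dimH_union]
      exact max_lt a4 b4
  · rw [dimM]
    refine le_iInf fun A => le_iInf fun h1 => le_iInf fun h2 => le_iInf fun h3 => ?_
    rw [h] at h3
    exact max_le (dimM_le_of h1 h2 h3.1) (dimM_le_of h1 h2 h3.2)

theorem mUNI : St_UNI := by
  intro β τ Z Z' w μ hβ h0 hNE hZ hw hμ
  have hτ := ne_of h0 hNE
  refine ⟨hτ, lset_eq hZ, ?_⟩
  set W := w false + w true with hW
  have hwf := (hw false).1
  have hwt := (hw true).1
  have hWpos : 0 < W := add_pos hwf hwt
  set a : ℝ≥0∞ := ENNReal.ofReal (w false / W) with ha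
  set b : ℝ≥0∞ := ENNReal.ofReal (w true / W) with hb
  have hab : a + b = 1 := by
    rw [ha, hb, ← ENNReal.ofReal_add (by positivity) (by positivity), ← add_div, ← hW,
      div_self hWpos.ne', ENNReal.ofReal_one]
  have ha0 : a ≠ 0 := by
    rw [ha]
    exact (ENNReal.ofReal_pos.2 (by positivity)).ne'
  have hb0 : b ≠ 0 := by
    rw [hb]
    exact (ENNReal.ofReal_pos.2 (by positivity)).ne'
  have hat : a ≠ ∞ := ENNReal.ofReal_ne_top
  have hbt : b ≠ ∞ := ENNReal.ofReal_ne_top
  obtain ⟨hpf, hcf, hlf⟩ := hμ false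
  obtain ⟨hpt, hct, hlt⟩ := hμ true
  set ν : Measure ℂ := a • μ false + b • μ true with hν
  have hνap : ∀ s, ν s = a * μ false s + b * μ true s := fun s => by
    rw [hν, Measure.add_apply, Measure.smul_apply, Measure.smul_apply, smul_eq_mul, smul_eq_mul]
  have hnull : ∀ s, ν s = 0 ↔ μ false s = 0 ∧ μ true s = 0 := by
    intro s
    rw [hνap, add_eq_zero, mul_eq_zero, mul_eq_zero]
    constructor
    · rintro ⟨h1, h2⟩
      exact ⟨h1.resolve_left ha0, h2.resolve_left hb0⟩
    · rintro ⟨h1, h2⟩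
      exact ⟨Or.inr h1, Or.inr h2⟩
  refine ⟨ν, ⟨⟨?_⟩, (hnull _).2 ⟨hcf, hct⟩, ?_⟩, dimM_mix hnull⟩
  · rw [hνap, hpf.measure_univ, hpt.measure_univ, mul_one, mul_one, hab]
  · intro f
    -- the integral
    have hint : ∫ z, f z ∂ν = w false / W * ∫ z, f z ∂(μ false) + w true / W * ∫ z, f z ∂(μ true) := by
      have i1 : Integrable (fun z => f z) (μ false) := f.integrable (μ false)
      have i2 : Integrable (fun z => f z) (μ true) := f.integrable (μ true)
      rw [hν, integral_add_measure (i1.smul_measure hat) (i2.smul_measure hbt),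
        integral_smul_measure, integral_smul_measure, ha, hb,
        ENNReal.toReal_ofReal (by positivity), ENNReal.toReal_ofReal (by positivity),
        smul_eq_mul, smul_eq_mul]
    rw [hint]
    -- shift of time
    have hsh : Tendsto (fun t : ℝ => t - τ []) atTop atTop :=
      tendsto_atTop_add_const_right _ _ tendsto_id
    have hAf := (hlf f).comp hsh
    have hAt := (hlt f).comp hsh
    have hNf := (hw false).2.comp hsh
    have hNt := (hw true).2.comp hsh
    have hmain : Tendsto (fun t : ℝ =>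
        (Real.exp (-β * (t - τ [])) * ((Alive (sh [false] τ) (t - τ [])).ncard : ℝ) *
            avg (sh [false] τ) (t - τ []) (fun v => f (Z' false v (t - τ []))) +
          Real.exp (-β * (t - τ [])) * ((Alive (sh [true] τ) (t - τ [])).ncard : ℝ) *
            avg (sh [true] τ) (t - τ []) (fun v => f (Z' true v (t - τ [])))) /
        (Real.exp (-β * (t - τ [])) * ((Alive (sh [false] τ) (t - τ [])).ncard : ℝ) +
          Real.exp (-β * (t - τ [])) * ((Alive (sh [true] τ) (t - τ [])).ncard : ℝ))) atTop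
        (𝓝 ((w false * ∫ z, f z ∂(μ false) + w true * ∫ z, f z ∂(μ true)) / W)) :=
      ((hNf.mul hAf).add (hNt.mul hAt)).div (hNf.add hNt) hWpos.ne'
    have e : (w false * ∫ z, f z ∂(μ false) + w true * ∫ z, f z ∂(μ true)) / W =
        w false / W * ∫ z, f z ∂(μ false) + w true / W * ∫ z, f z ∂(μ true) := by
      ring
    rw [e] at hmain
    refine hmain.congr' ?_
    filter_upwards [eventually_ge_atTop (τ [])] with t ht
    set s := t - τ [] with hs
    have hts : τ [] + s = t := by rw [hs]; ring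
    have e1 : ∀ x : Bool, ∑ᶠ p ∈ Alive (sh [x] τ) s, f (Z (p ++ [x]) t) =
        ((Alive (sh [x] τ) s).ncard : ℝ) * avg (sh [x] τ) s (fun v => f (Z' x v s)) := by
      intro x
      rw [← sum_avg (hNE x)]
      refine finsum_mem_congr rfl (fun p hp => ?_)
      rw [hZ x p s hp, hts]
    have e2 : avg τ t (fun v => f (Z v t)) =
        (((Alive (sh [false] τ) s).ncard : ℝ) + ((Alive (sh [true] τ) s).ncard : ℝ))⁻¹ *
        (((Alive (sh [false] τ) s).ncard : ℝ) * avg (sh [false] τ) s (fun v => f (Z' false v s)) +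
          ((Alive (sh [true] τ) s).ncard : ℝ) * avg (sh [true] τ) s (fun v => f (Z' true v s))) := by
      rw [avg, sum_eq hNE ht (fun v => f (Z v t)), e1, e1, ncard_eq hNE ht]
      push_cast
      rfl
    rw [e2]
    have hexp := Real.exp_pos (-β * s)
    rw [← mul_add, mul_assoc, mul_assoc, ← mul_add, mul_div_mul_left _ _ hexp.ne', div_eq_inv_mul]

end Pool.Agent.helper41.HB
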