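import Pool.Agent.helper23.HB.Stmts

set_option autoImplicit false
set_option linter.all false

open MeasureTheory ProbabilityTheory Set Filter Topology
open scoped ENNReal NNReal

namespace Pool.Agent.helper41.HB

open Pool.Agent.helper23.HB

namespace FEW

theorem measurableSet_bad (ε : ℝ) (m : ℕ) : MeasurableSet {x : ℕ → ℝ × ℝ | bad ε m x} := by
  have e : {x : ℕ → ℝ × ℝ | bad ε m x} =
      (⋃ k ∈ Finset.range m, {x : ℕ → ℝ × ℝ | ε * m ≤ (∑ j ∈ Finset.Ico k m, (x j).1) + (x k).2}) ∪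
        {x | ε * m ≤ (x m).2} := by
    ext x
    simp only [bad, mem_setOf_eq, mem_union, mem_iUnion, Finset.mem_range, exists_prop]
  rw [e]
  refine MeasurableSet.union (Finset.measurableSet_biUnion _ fun k _ => ?_) ?_
  · refine measurableSet_le measurable_const (Measurable.add ?_ ?_)
    · exact Finset.measurable_sum _ fun j _ => measurable_fst.comp (measurable_pi_apply j)
    · exact measurable_snd.comp (measurable_pi_apply k)
  · exact measurableSet_le measurable_const (measurable_snd.comp (measurable_pi_apply m))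

theorem blk_congr (h : ℝ) (hh : 0 ≤ h) {X X' : ℝ → ℝ} {k : ℕ} (hX : ∀ t, t ≤ k * h + h → X t = X' t) :
    blk h X k = blk h X' k := by
  unfold blk
  rw [hX _ le_rfl, hX _ (by linarith : (k : ℝ) * h ≤ k * h + h)]
  refine Prod.ext rfl ?_
  show (⨆ r' : Icc (0 : ℝ) h, _) = ⨆ r' : Icc (0 : ℝ) h, _
  congr 1
  funext r'
  rw [hX _ (by have := r'.2.2; linarith : (k : ℝ) * h + r' ≤ k * h + h)]

/-- the bad event only depends on the first blocks -/
theorem bad_congr (ε : ℝ) (j : ℕ) {X X' : ℝ → ℝ} (hX : ∀ t, t ≤ (j : ℝ) + 1 → X t = X' t) :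
    bad ε j (blk 1 X) ↔ bad ε j (blk 1 X') := by
  have h : ∀ k, k ≤ j → blk 1 X k = blk 1 X' k := by
    intro k hk
    apply blk_congr 1 zero_le_one
    intro t ht
    apply hX
    have : (k : ℝ) ≤ j := by exact_mod_cast hk
    linarith
  unfold bad
  rw [h j le_rfl]
  refine or_congr (exists_congr fun k => ?_) Iff.rfl
  refine and_congr_right fun hk => ?_
  rw [h k hk.le, Finset.sum_congr rfl (fun i hi => by rw [h i (Finset.mem_Ico.1 hi).2.le])]

/-- the mean of the series -/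
noncomputable def As (β ε : ℝ) (τ : Lab → ℝ) (b : Lab → Pth) (j : ℕ) : ℝ≥0∞ :=
  ENNReal.ofReal (Real.exp (-β * ((j : ℝ) + 1))) *
    ∑' u : Lab, ind (u ∈ Alive τ ((j : ℝ) + 1)) * ind (bad ε j (blk 1 (line τ b u))) * wt β τ u

theorem measurable_term (β ε : ℝ) (j : ℕ) (u : Lab) :
    Measurable (fun x : (Lab → ℝ) × (Lab → Pth) => ind (u ∈ Alive x.1 ((j : ℝ) + 1)) *
      ind (bad ε j (blk 1 (line x.1 x.2 u))) * wt β x.1 u) := by
  refine Measurable.mul (Measurable.mul ?_ ?_) ?_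
  · exact measurable_ind (measurable_fst (measurableSet_Alive_left u _))
  · exact measurable_ind ((measurable_blk_line 1 u) (measurableSet_bad ε j))
  · exact (measurable_wt β u).comp measurable_fst

theorem measurable_As (β ε : ℝ) (j : ℕ) :
    Measurable (fun x : (Lab → ℝ) × (Lab → Pth) => As β ε x.1 x.2 j) :=
  (Measurable.tsum fun u => measurable_term β ε j u).const_mul _

theorem mean_As (hM21 : St_M21) (hWT : St_WT) {Ω : Type} [MeasurableSpace Ω] {P : Measure Ω}
    [IsProbabilityMeasure P] {β : ℝ} (hβ : 0 < β) {T : Ω → Lab → ℝ} {B : Ω → Lab → Pth}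
    (hT : Life β P T) (hB : Noise P B) (hTB : IndepFun T B P) (ε : ℝ) :
    ∃ C : ℝ≥0∞, C ≠ ∞ ∧ ∀ j : ℕ, ∫⁻ ω, As β ε (T ω) (B ω) j ∂P ≤
      C * P {ω | bad ε j (blk 1 (B ω []))} := by
  obtain ⟨C, hC, hC2⟩ := hWT Ω P β T hβ hT
  refine ⟨C, hC, fun j => ?_⟩
  have hmT : Measurable T := measurable_pi_lambda _ hT.meas
  have hmB : Measurable B := measurable_pi_lambda _ hB.meas
  have hterm : ∀ u, Measurable (fun ω => ind (u ∈ Alive (T ω) ((j : ℝ) + 1)) *
      ind (bad ε j (blk 1 (line (T ω) (B ω) u))) * wt β (T ω) u) := fun u =>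
    (measurable_term β ε j u).comp (hmT.prodMk hmB)
  have hj : (0 : ℝ) ≤ (j : ℝ) + 1 := by positivity
  unfold As
  rw [lintegral_const_mul _ (Measurable.tsum hterm), lintegral_tsum fun u => (hterm u).aemeasurable]
  have hPbad : ∫⁻ ω, ind (bad ε j (blk 1 (B ω []))) ∂P = P {ω | bad ε j (blk 1 (B ω []))} := by
    have hS : MeasurableSet {ω | bad ε j (blk 1 (B ω []))} :=
      ((measurable_blk_pth 1).comp (hB.meas [])) (measurableSet_bad ε j)
    rw [← lintegral_indicator_one hS]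
    refine lintegral_congr fun ω => ?_
    by_cases h : bad ε j (blk 1 (B ω []))
    · rw [ind_true h, indicator_of_mem (show ω ∈ {ω | bad ε j (blk 1 (B ω []))} from h)]
      rfl
    · rw [ind_false h, indicator_of_notMem (show ω ∉ {ω | bad ε j (blk 1 (B ω []))} from h)]
  have hu : ∀ u : Lab, ∫⁻ ω, ind (u ∈ Alive (T ω) ((j : ℝ) + 1)) *
      ind (bad ε j (blk 1 (line (T ω) (B ω) u))) * wt β (T ω) u ∂P =
      (∫⁻ ω, ind (u ∈ Alive (T ω) ((j : ℝ) + 1)) * wt β (T ω) u ∂P) *
        P {ω | bad ε j (blk 1 (B ω []))} := by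
    intro u
    have h1 := hM21 Ω P T B hT.meas hT.pos hB hTB u 1 one_pos
      (fun τ => ind (u ∈ Alive τ ((j : ℝ) + 1)) * wt β τ u) (fun x => ind (bad ε j x))
      ((measurable_ind (measurableSet_Alive_left u _)).mul (measurable_wt β u))
      (measurable_ind (measurableSet_bad ε j))
    rw [hPbad] at h1
    rw [← h1]
    refine lintegral_congr fun ω => ?_
    ring
  rw [tsum_congr hu, ENNReal.tsum_mul_right, ← mul_assoc]
  refine mul_le_mul_left ?_ _
  calc ENNReal.ofReal (Real.exp (-β * ((j : ℝ) + 1))) *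
        ∑' u : Lab, ∫⁻ ω, ind (u ∈ Alive (T ω) ((j : ℝ) + 1)) * wt β (T ω) u ∂P
      ≤ ENNReal.ofReal (Real.exp (-β * ((j : ℝ) + 1))) *
        (C * ENNReal.ofReal (Real.exp (β * ((j : ℝ) + 1)))) := mul_le_mul_right (hC2 _ hj) _
    _ = C * (ENNReal.ofReal (Real.exp (-β * ((j : ℝ) + 1))) *
        ENNReal.ofReal (Real.exp (β * ((j : ℝ) + 1)))) := by ring
    _ = C := by
        rw [← ENNReal.ofReal_mul (Real.exp_pos _).le, ← Real.exp_add]
        have : -β * ((j : ℝ) + 1) + β * ((j : ℝ) + 1) = 0 := by ring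
        rw [this, Real.exp_zero, ENNReal.ofReal_one, mul_one]

theorem tsum_ind_eq {s : Set Lab} (hs : s.Finite) : ∑' v : Lab, ind (v ∈ s) = (s.ncard : ℝ≥0∞) := by
  classical
  rw [tsum_eq_sum (s := hs.toFinset)]
  · rw [Finset.sum_congr rfl (fun v hv => ind_true ((hs.mem_toFinset).1 hv)), Finset.sum_const,
      nsmul_eq_mul, mul_one, Set.ncard_eq_toFinset_card s hs]
  · intro v hv
    exact ind_false fun h => hv ((hs.mem_toFinset).2 h)

theorem tail (f : ℕ → ℝ≥0∞) (hf : ∑' j, f j ≠ ∞) :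
    Tendsto (fun N : ℕ => ∑' j, ind (N ≤ j) * f j) atTop (𝓝 0) := by
  refine (ENNReal.tendsto_sum_nat_add f hf).congr fun N => ?_
  have hinj : Function.Injective (fun k : ℕ => k + N) := add_left_injective N
  have h1 := hinj.tsum_eq (f := fun j => ind (N ≤ j) * f j) (by
    intro j hj
    have h2 : N ≤ j := by
      by_contra h
      apply hj
      show ind (N ≤ j) * f j = 0
      rw [ind_false h, zero_mul]
    exact ⟨j - N, by show j - N + N = j; omega⟩)
  rw [← h1]
  refine tsum_congr fun k => ?_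
  rw [ind_true (by omega : N ≤ k + N), one_mul]

end FEW

open FEW

theorem mFEW (hPT : St_PT) (hM21 : St_M21) (hBAD : St_BAD) (hWT : St_WT) (hCNT : St_CNT) :
    St_FEW := by
  intro Ω _ P _ β lam hβ hlam S ε hε
  have hmT : Measurable S.T := measurable_pi_lambda _ S.life.meas
  have hmB : Measurable S.B := measurable_pi_lambda _ S.noiseB.meas
  have hBM : BMp P (fun ω => (S.B ω [] : ℝ → ℝ)) :=
    ⟨fun ω => (S.B ω []).continuous, fun t => (measurable_pth_apply t).comp (S.noiseB.meas []),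
      S.noiseB.bm []⟩
  obtain ⟨C, hC, hC2⟩ := mean_As hM21 hWT hβ S.life S.noiseB S.indepTB ε
  have hmj : ∀ j, Measurable (fun ω => As β ε (S.T ω) (S.B ω) j) := by
    intro j
    have h := (measurable_As β ε j).comp (hmT.prodMk hmB)
    exact h
  have hsum : ∫⁻ ω, ∑' j, As β ε (S.T ω) (S.B ω) j ∂P ≠ ∞ := by
    rw [lintegral_tsum fun j => (hmj j).aemeasurable]
    refine ne_top_of_le_ne_top ?_ (ENNReal.tsum_le_tsum hC2)
    rw [ENNReal.tsum_mul_left]
    exact ENNReal.mul_ne_top hC (hBAD Ω P _ hBM ε hε)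
  have hmS : Measurable (fun ω => ∑' j, As β ε (S.T ω) (S.B ω) j) :=
    Measurable.tsum hmj
  filter_upwards [ae_lt_top hmS hsum, (hCNT Ω P β S.T hβ S.life).2] with ω hω hNE
  intro δ hδ
  have hτ := hNE.1
  have hlim := ENNReal.Tendsto.const_mul (tail _ hω.ne) (a := ENNReal.ofReal (Real.exp β))
    (Or.inr ENNReal.ofReal_ne_top)
  rw [mul_zero] at hlim
  obtain ⟨N, hN⟩ := (hlim.eventually (gt_mem_nhds (ENNReal.ofReal_pos.2 hδ))).exists
  refine ⟨N, fun n hn => ?_⟩
  have hpt := hPT β (S.T ω) N n (fun u j => ind (bad ε j (blk 1 (line (S.T ω) (S.B ω) u))))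
    (fun v => ind (v ∉ Gd4 ε N n (S.T ω) (S.B ω))) hβ hNE (by exact_mod_cast hn) (by
      intro v hv v' hv' hvv'
      rw [Nat.floor_natCast]
      by_cases hg : v ∈ Gd4 ε N n (S.T ω) (S.B ω)
      · rw [ind_false (by simpa using hg)]
        exact zero_le
      · have h1 : ¬ ∀ j, N ≤ j → j < n → ¬bad ε j (blk 1 (line (S.T ω) (S.B ω) v)) :=
          fun h => hg ⟨hv, h⟩
        push Not at h1
        obtain ⟨j, hj1, hj2, hj3⟩ := h1
        have hjn : (j : ℝ) + 1 ≤ n := by exact_mod_cast hj2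
        rw [Nat.floor_natCast] at hv'
        have hvd := hv.2
        have hvd' := hv'.2
        set w := anc (S.T ω) ((j : ℝ) + 1) v' with hw
        have hwA : w ∈ Alive (S.T ω) ((j : ℝ) + 1) := anc_mem (by positivity) (by linarith)
        have hws : w <:+ v' := anc_suffix _ _ _
        have hbad : bad ε j (blk 1 (line (S.T ω) (S.B ω) w)) := by
          refine (bad_congr ε j (fun t ht => ?_)).1 hj3
          have hwd := hwA.2
          have e1 : line (S.T ω) (S.B ω) v' t = line (S.T ω) (S.B ω) v t := by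
            obtain ⟨p, rfl⟩ := hvv'
            exact line_old_append hτ _ p v (by linarith)
          have e2 : line (S.T ω) (S.B ω) v' t = line (S.T ω) (S.B ω) w t := by
            obtain ⟨p, hp⟩ := hws
            rw [← hp]
            exact line_old_append hτ _ p w (by linarith)
          rw [← e1, e2]
        refine (ind_le_one _).trans ?_
        have h2 : (1 : ℝ≥0∞) = ind (bad ε j (blk 1 (line (S.T ω) (S.B ω)
            (anc (S.T ω) ((j : ℝ) + 1) v')))) := (ind_true hbad).symm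
        rw [h2]
        exact Finset.single_le_sum (f := fun j : ℕ => ind (bad ε j (blk 1 (line (S.T ω) (S.B ω)
          (anc (S.T ω) ((j : ℝ) + 1) v'))))) (fun _ _ => zero_le)
          (Finset.mem_Icc.2 ⟨hj1, hj2.le⟩))
  have hfin : (Alive (S.T ω) n \ Gd4 ε N n (S.T ω) (S.B ω)).Finite :=
    (hNE.finite_Alive n).subset diff_subset
  have hcount : ∑' v : Lab, ind (v ∈ Alive (S.T ω) n) * ind (v ∉ Gd4 ε N n (S.T ω) (S.B ω)) =
      ((Alive (S.T ω) n \ Gd4 ε N n (S.T ω) (S.B ω)).ncard : ℝ≥0∞) := by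
    rw [← tsum_ind_eq hfin]
    refine tsum_congr fun v => ?_
    by_cases h1 : v ∈ Alive (S.T ω) n
    · by_cases h2 : v ∉ Gd4 ε N n (S.T ω) (S.B ω)
      · rw [ind_true h1, ind_true h2, ind_true ⟨h1, h2⟩, one_mul]
      · rw [ind_false h2, mul_zero, ind_false (fun h => h2 h.2)]
    · rw [ind_false h1, zero_mul, ind_false (fun h => h1 h.1)]
  rw [hcount] at hpt
  have h3 : ENNReal.ofReal (Real.exp (-β * n)) *
      ((Alive (S.T ω) n \ Gd4 ε N n (S.T ω) (S.B ω)).ncard : ℝ≥0∞) ≤ ENNReal.ofReal δ := by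
    simp only [As] at hN
    exact hpt.trans hN.le
  have h4 : ((Alive (S.T ω) n \ Gd4 ε N n (S.T ω) (S.B ω)).ncard : ℝ≥0∞) =
      ENNReal.ofReal ((Alive (S.T ω) n \ Gd4 ε N n (S.T ω) (S.B ω)).ncard : ℝ) := by
    rw [ENNReal.ofReal_natCast]
  rw [h4, ← ENNReal.ofReal_mul (Real.exp_pos _).le] at h3
  exact (ENNReal.ofReal_le_ofReal_iff hδ.le).1 h3

end Pool.Agent.helper41.HB
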